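import Mathlib

/-!
# Hölder actions: uniform constants on a coset, null images, generic values
-/

set_option autoImplicit false
set_option linter.unusedSectionVars false
set_option linter.unusedVariables false

open Set MeasureTheory Metric Filter Topology
open scoped NNReal ENNReal

namespace Pool.Agent.Helper83.TF

/-! ### The uniform constant -/

/-- The map `f` is Hölder continuous near `x₀`, with an exponent larger than `β`. -/
def HolNear {X Y : Type*} [PseudoMetricSpace X] [PseudoMetricSpace Y] (β : ℝ) (f : X → Y)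
    (x₀ : X) : Prop :=
  ∃ (b C : ℝ), β < b ∧ ∃ V ∈ 𝓝 x₀, ∀ y ∈ V, ∀ z ∈ V, dist (f y) (f z) ≤ C * dist y z ^ b

/-- **The coset lemma.** If all elements of the group act Hölder continuously near `x₀`, then this
is uniform on a coset of a neighbourhood of `1`. -/
theorem exists_uniform_coset {G : Type*} [Group G] [TopologicalSpace G] [IsTopologicalGroup G]
    [BaireSpace G] {X : Type*} [MetricSpace X] [MulAction G X] [ContinuousSMul G X] {β : ℝ}
    (hβ : 0 ≤ β) {x₀ : X} (hH : ∀ a : G, HolNear β (fun y => a • y) x₀) :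
    ∃ (g₀ : G) (b C r : ℝ), β < b ∧ 0 ≤ C ∧ 0 < r ∧ r ≤ 1 / 2 ∧ ∀ᶠ h in 𝓝 (1 : G),
      ∀ y ∈ ball x₀ r, ∀ z ∈ ball x₀ r,
        dist ((g₀ * h) • y) ((g₀ * h) • z) ≤ C * dist y z ^ b := by
  classical
  -- the closed sets
  let E : (ℕ × ℕ × ℚ) → Set G := fun q => if β < (q.2.2 : ℝ) then {a | ∀ y ∈ ball x₀ (1 / ((q.1 : ℝ) + 2)),
    ∀ z ∈ ball x₀ (1 / ((q.1 : ℝ) + 2)), dist (a • y) (a • z) ≤ (q.2.1 : ℝ) * dist y z ^ (q.2.2 : ℝ)}
    else ∅
  have hEc : ∀ q, IsClosed (E q) := by
    intro q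
    simp only [E]
    split_ifs
    · have h1 : {a : G | ∀ y ∈ ball x₀ (1 / ((q.1 : ℝ) + 2)), ∀ z ∈ ball x₀ (1 / ((q.1 : ℝ) + 2)),
          dist (a • y) (a • z) ≤ (q.2.1 : ℝ) * dist y z ^ (q.2.2 : ℝ)} =
          ⋂ y ∈ ball x₀ (1 / ((q.1 : ℝ) + 2)), ⋂ z ∈ ball x₀ (1 / ((q.1 : ℝ) + 2)),
          {a : G | dist (a • y) (a • z) ≤ (q.2.1 : ℝ) * dist y z ^ (q.2.2 : ℝ)} := by
        ext a
        simp only [mem_iInter]
        rfl
      rw [h1]
      refine isClosed_biInter fun y _ => isClosed_biInter fun z _ => ?_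
      exact isClosed_le (Continuous.dist (by fun_prop) (by fun_prop)) continuous_const
    · exact isClosed_empty
  have hEu : ⋃ q, E q = univ := by
    refine eq_univ_of_forall fun a => ?_
    obtain ⟨b, C, hb, V, hV, hVH⟩ := hH a
    obtain ⟨δ, hδ, hball⟩ := Metric.mem_nhds_iff.1 hV
    obtain ⟨c, hc1, hc2⟩ := exists_rat_btwn hb
    obtain ⟨M, hM⟩ := exists_nat_ge C
    obtain ⟨N, hN⟩ := exists_nat_gt (1 / δ)
    refine mem_iUnion.2 ⟨(N, M, c), ?_⟩
    simp only [E]
    rw [if_pos hc1]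
    intro y hy z hz
    have hNδ : 1 / ((N : ℝ) + 2) < δ := by
      rw [div_lt_iff₀ (by positivity)]
      rw [div_lt_iff₀ hδ] at hN
      nlinarith
    have hsub : ball x₀ (1 / ((N : ℝ) + 2)) ⊆ V := (ball_subset_ball hNδ.le).trans hball
    have h5 : dist y z ≤ 1 := by
      have h6 := dist_triangle_right y z x₀
      rw [mem_ball] at hy hz
      have h7 : 1 / ((N : ℝ) + 2) ≤ 1 / 2 := by
        apply one_div_le_one_div_of_le (by norm_num)
        have : (0 : ℝ) ≤ N := Nat.cast_nonneg N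
        linarith
      linarith
    have h8 := hVH y (hsub hy) z (hsub hz)
    rcases eq_or_lt_of_le (dist_nonneg (x := y) (y := z)) with h0 | h0
    · have hyz : y = z := dist_eq_zero.1 h0.symm
      rw [hyz, dist_self, dist_self]
      have h9 : (0 : ℝ) ≤ 0 ^ ((c : ℚ) : ℝ) := Real.rpow_nonneg le_rfl _
      positivity
    · have h9 : dist y z ^ b ≤ dist y z ^ (c : ℝ) :=
        Real.rpow_le_rpow_of_exponent_ge h0 h5 hc2.le
      have h10 : 0 ≤ dist y z ^ b := Real.rpow_nonneg dist_nonneg _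
      calc dist (a • y) (a • z) ≤ C * dist y z ^ b := h8
        _ ≤ M * dist y z ^ b := mul_le_mul_of_nonneg_right hM h10
        _ ≤ M * dist y z ^ (c : ℝ) := mul_le_mul_of_nonneg_left h9 (Nat.cast_nonneg M)
  obtain ⟨q, hq⟩ := nonempty_interior_of_iUnion_of_closed hEc hEu
  obtain ⟨g₀, hg₀⟩ := hq
  have hβq : β < (q.2.2 : ℝ) := by
    by_contra hcon
    have h1 := interior_subset hg₀
    simp only [E] at h1
    rw [if_neg hcon] at h1
    exact h1
  refine ⟨g₀, q.2.2, q.2.1, 1 / ((q.1 : ℝ) + 2), hβq, Nat.cast_nonneg _, by positivity, ?_, ?_⟩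
  · apply one_div_le_one_div_of_le (by norm_num)
    have : (0 : ℝ) ≤ q.1 := Nat.cast_nonneg _
    linarith
  · have h1 : Tendsto (fun h : G => g₀ * h) (𝓝 1) (𝓝 g₀) := by
      have := (continuous_const_mul g₀).tendsto (1 : G)
      rwa [mul_one] at this
    filter_upwards [h1.eventually (isOpen_interior.mem_nhds hg₀)] with h hh
    have h2 := interior_subset hh
    simp only [E] at h2
    rw [if_pos hβq] at h2
    exact h2

/-! ### Null images -/

/-- Hölder images of subsets of `ℝⁿ` are null if the exponent is large. -/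
theorem null_image {n : ℕ} {W : Type*} [NormedAddCommGroup W] [NormedSpace ℝ W]
    [FiniteDimensional ℝ W] [MeasurableSpace W] [BorelSpace W] (μ : Measure W)
    [μ.IsAddHaarMeasure] {f : (Fin n → ℝ) → W} {s : Set (Fin n → ℝ)} {C : ℝ≥0} {b : ℝ≥0}
    (hf : HolderOnWith C b f s) (hb : 0 < b) (hbn : (n : ℝ) < b * Module.finrank ℝ W) :
    μ (f '' s) = 0 := by
  have h1 := hf.hausdorffMeasure_image_le hb (d := (Module.finrank ℝ W : ℝ)) (by positivity)
  have h2 : μH[(b : ℝ) * (Module.finrank ℝ W : ℝ)] s = 0 := by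
    have h3 : dimH s < ((b * (Module.finrank ℝ W : ℝ≥0) : ℝ≥0) : ℝ≥0∞) := by
      have h4 : dimH s ≤ n := (dimH_mono (subset_univ s)).trans_eq (Real.dimH_univ_pi_fin n)
      refine h4.trans_lt ?_
      have h5 : (n : ℝ≥0) < b * (Module.finrank ℝ W : ℝ≥0) := by
        rw [← NNReal.coe_lt_coe]
        push_cast
        exact hbn
      exact_mod_cast h5
    have h6 := hausdorffMeasure_of_dimH_lt h3
    rw [NNReal.coe_mul, NNReal.coe_natCast] at h6
    exact h6
  rw [h2, mul_zero] at h1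
  have h3 : μH[(Module.finrank ℝ W : ℝ)] (f '' s) = 0 := le_antisymm h1 zero_le
  have h4 : μ = Measure.addHaarScalarFactor μ μH[(Module.finrank ℝ W : ℝ)] •
      μH[(Module.finrank ℝ W : ℝ)] := Measure.isAddLeftInvariant_eq_smul _ _
  rw [h4, Measure.smul_apply, h3, smul_zero]

/-- **Generic points.** The values of countably many surjective linear maps avoid null sets. -/
theorem exists_generic {E W : Type*} [NormedAddCommGroup E] [NormedSpace ℝ E]
    [FiniteDimensional ℝ E] [NormedAddCommGroup W] [NormedSpace ℝ W] [FiniteDimensional ℝ W]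
    [MeasurableSpace W] [BorelSpace W] {ι : Type*} [Countable ι] (L : ι → E →ₗ[ℝ] W)
    (hL : ∀ i, Function.Surjective (L i)) (N : ι → Set W)
    (hN : ∀ i, (Measure.addHaar : Measure W) (N i) = 0) {O : Set E} (hO : IsOpen O)
    (hOn : O.Nonempty) : ∃ x ∈ O, ∀ i, L i x ∉ N i := by
  let _ : MeasurableSpace E := borel E
  have : BorelSpace E := ⟨rfl⟩
  set μ : Measure E := Measure.addHaar with hμ
  have h1 : ∀ i, μ (L i ⁻¹' (N i)) = 0 := by
    intro i
    obtain ⟨c, hc, hmap⟩ := (L i).exists_map_addHaar_eq_smul_addHaar μ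
      (Measure.addHaar : Measure W) (hL i)
    set T := toMeasurable (Measure.addHaar : Measure W) (N i) with hT
    have h2 : (Measure.addHaar : Measure W) T = 0 := by rw [hT, measure_toMeasurable, hN i]
    have h3 : μ (L i ⁻¹' T) = 0 := by
      have hLm : Measurable (L i) := (LinearMap.continuous_of_finiteDimensional (L i)).measurable
      rw [← Measure.map_apply hLm (measurableSet_toMeasurable _ _), hmap,
        Measure.smul_apply, h2, smul_zero]
    exact measure_mono_null (preimage_mono (subset_toMeasurable _ _)) h3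
  have h2 : μ (⋃ i, L i ⁻¹' (N i)) = 0 := measure_iUnion_null h1
  have h3 : ¬ O ⊆ ⋃ i, L i ⁻¹' (N i) := by
    intro h
    have h4 := measure_mono_null h h2
    exact (hO.measure_pos μ hOn).ne' h4
  obtain ⟨x, hx, hx'⟩ := not_subset.1 h3
  exact ⟨x, hx, fun i hi => hx' (mem_iUnion.2 ⟨i, hi⟩)⟩

/-- The Hölder estimate for averages. -/
theorem norm_avg_sub_le {A E : Type*} [MeasurableSpace A] (ν : Measure A)
    [IsProbabilityMeasure ν] [NormedAddCommGroup E] [NormedSpace ℝ E]
    {f g : A → E} (hf : Integrable f ν) (hg : Integrable g ν) {M : ℝ}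
    (h : ∀ a, ‖f a - g a‖ ≤ M) : ‖(∫ a, f a ∂ν) - ∫ a, g a ∂ν‖ ≤ M := by
  rw [← integral_sub hf hg]
  have h2 := norm_integral_le_of_norm_le_const (μ := ν) (f := fun a => f a - g a) (C := M)
    (ae_of_all _ h)
  simpa using h2

end Pool.Agent.Helper83.TF
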