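import Pool.Agent.Helper83.TF.Av
import Pool.Agent.Helper83.TF.Hol

/-!
# Lipschitz approximation and null images of averages
-/

set_option autoImplicit false
set_option linter.unusedSectionVars false
set_option linter.unusedVariables false

open Set MeasureTheory Metric Filter Topology
open scoped NNReal ENNReal

namespace Pool.Agent.Helper83.TF

/-- Lipschitz functions approximate continuous functions on compact sets. -/
theorem exists_lip_approx {Y : Type*} [MetricSpace Y] {K : Set Y} (hK : IsCompact K)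
    {h : Y → ℝ} (hh : ContinuousOn h K) {ε : ℝ} (hε : 0 < ε) :
    ∃ (H : Y → ℝ) (C : ℝ≥0), LipschitzWith C H ∧ ∀ y ∈ K, |H y - h y| ≤ ε := by
  rcases K.eq_empty_or_nonempty with rfl | hne
  · exact ⟨fun _ => 0, 0, LipschitzWith.const 0, by simp⟩
  have hKne : Nonempty K := hne.to_subtype
  obtain ⟨M, hM⟩ := hK.exists_bound_of_continuousOn hh
  have hM0 : 0 ≤ M := (norm_nonneg _).trans (hM _ hne.some_mem)
  obtain ⟨δ, hδ, hu⟩ := Metric.uniformContinuousOn_iff.mp
    (hK.uniformContinuousOn_of_continuous hh) ε hε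
  set L : ℝ≥0 := Real.toNNReal (2 * M / δ) with hL
  have hLδ : (L : ℝ) * δ = 2 * M := by
    rw [hL, Real.coe_toNNReal _ (by positivity)]
    field_simp
  set H : Y → ℝ := fun y => ⨅ q : K, (h q + L * dist y (q : Y)) with hH
  have hbd : ∀ y : Y, BddBelow (range fun q : K => h q + L * dist y (q : Y)) := by
    intro y
    refine ⟨-M, ?_⟩
    rintro _ ⟨q, rfl⟩
    have h1 := hM q q.2
    rw [Real.norm_eq_abs, abs_le] at h1
    have h2 : (0 : ℝ) ≤ L * dist y q := by positivity
    simp only
    linarith [h1.1]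
  refine ⟨H, L, ?_, ?_⟩
  · apply LipschitzWith.of_le_add_mul
    intro x y
    have h1 : ∀ q : K, H x - L * dist x y ≤ h q + L * dist y q := by
      intro q
      have h2 : H x ≤ h q + L * dist x q := ciInf_le (hbd x) q
      have h3 : dist x q ≤ dist x y + dist y q := dist_triangle _ _ _
      have h4 : (L : ℝ) * dist x q ≤ L * dist x y + L * dist y q := by
        rw [← mul_add]
        exact mul_le_mul_of_nonneg_left h3 L.2
      linarith
    have h2 : H x - L * dist x y ≤ H y := le_ciInf h1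
    linarith
  · intro y hy
    have h1 : H y ≤ h y := by
      have := ciInf_le (hbd y) ⟨y, hy⟩
      simpa using this
    have h2 : h y - ε ≤ H y := by
      apply le_ciInf
      intro q
      by_cases hd : dist y q < δ
      · have h3 := hu y hy q q.2 hd
        rw [Real.dist_eq, abs_lt] at h3
        have h4 : (0 : ℝ) ≤ L * dist y q := by positivity
        linarith [h3.2]
      · push Not at hd
        have h3 : (L : ℝ) * δ ≤ L * dist y q := mul_le_mul_of_nonneg_left hd L.2
        have h4 := hM q q.2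
        have h5 := hM y hy
        rw [Real.norm_eq_abs, abs_le] at h4 h5
        linarith [h4.1, h5.2]
    rw [abs_le]
    constructor <;> linarith

/-- The same through an injective continuous map. -/
theorem exists_lip_comp {V Y : Type*} [TopologicalSpace V] [MetricSpace Y] {C : Set V}
    (hC : IsCompact C) {q : V → Y} (hq : ContinuousOn q C) (hinj : InjOn q C) {h : V → ℝ}
    (hh : ContinuousOn h C) {ε : ℝ} (hε : 0 < ε) :
    ∃ (H : Y → ℝ) (K : ℝ≥0), LipschitzWith K H ∧ ∀ x ∈ C, |H (q x) - h x| ≤ ε := by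
  have hCc : CompactSpace C := isCompact_iff_compactSpace.mp hC
  set e : C → Y := fun x => q x with he
  have hec : Continuous e := continuousOn_iff_continuous_domRestrict.mp hq
  have hei : Function.Injective e := fun x y hxy => Subtype.ext (hinj x.2 y.2 hxy)
  have hcl : IsClosedEmbedding e := hec.isClosedEmbedding hei
  obtain ⟨g, hg⟩ := ContinuousMap.exists_extension hcl
    ⟨fun x : C => h x, continuousOn_iff_continuous_domRestrict.mp hh⟩
  obtain ⟨H, K, hH, hHK⟩ := exists_lip_approx (hC.image_of_continuousOn hq)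
    g.continuous.continuousOn hε
  refine ⟨H, K, hH, fun x hx => ?_⟩
  have h1 := hHK (q x) (mem_image_of_mem q hx)
  have h2 : g (q x) = h x := congrArg (fun f => f ⟨x, hx⟩) hg
  rwa [h2] at h1

/-- Hölder maps from inequalities of distances. -/
theorem holderOnWith_of_dist {X Y : Type*} [PseudoMetricSpace X] [PseudoMetricSpace Y] {f : X → Y}
    {s : Set X} {C b : ℝ} (hC : 0 ≤ C) (hb : 0 ≤ b)
    (h : ∀ x ∈ s, ∀ y ∈ s, dist (f x) (f y) ≤ C * dist x y ^ b) :
    HolderOnWith C.toNNReal b.toNNReal f s := by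
  intro x hx y hy
  have h1 := h x hx y hy
  rw [edist_dist, edist_dist, Real.coe_toNNReal b hb,
    ENNReal.ofReal_rpow_of_nonneg dist_nonneg hb]
  change _ ≤ ENNReal.ofReal C * _
  rw [← ENNReal.ofReal_mul hC]
  exact ENNReal.ofReal_le_ofReal h1

/-- Averages of families of Lipschitz functions of a Hölder family have null image. -/
theorem null_avg {n m : ℕ} {G : Type*} [Group G] [TopologicalSpace G] [IsTopologicalGroup G]
    [CompactSpace G] [MeasurableSpace G] [BorelSpace G] (ν : Measure G) [IsProbabilityMeasure ν]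
    {Y : Type*} [MetricSpace Y] {Λ : G → (Fin n → ℝ) → Y} {s : Set (Fin n → ℝ)}
    (hΛ : ∀ x ∈ s, Continuous fun a => Λ a x) {b C : ℝ} (hb0 : 0 < b)
    (hb : (n : ℝ) < b * (n + m)) (hC : 0 ≤ C)
    (hH : ∀ a, ∀ x ∈ s, ∀ x' ∈ s, dist (Λ a x) (Λ a x') ≤ C * dist x x' ^ b)
    (f : Fin n → Y → ℝ) (g : Fin m → Y → ℝ) {K : ℝ≥0} (hf : ∀ i, LipschitzWith K (f i))
    (hg : ∀ i, LipschitzWith K (g i)) :
    (Measure.addHaar : Measure ((Fin n → ℝ) × (Fin m → ℝ)))
      ((fun x => ((fun i => ∫ a, f i (Λ a⁻¹ x) ∂ν : Fin n → ℝ),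
        (fun i => ∫ a, g i (Λ a⁻¹ x) ∂ν : Fin m → ℝ))) '' s) = 0 := by
  have hint : ∀ (φ : Y → ℝ), LipschitzWith K φ → ∀ x ∈ s,
      Integrable (fun a => φ (Λ a⁻¹ x)) ν := by
    intro φ hφ x hx
    exact ((hφ.continuous.comp ((hΛ x hx).comp continuous_inv))).integrable_of_hasCompactSupport
      (HasCompactSupport.of_compactSpace _)
  have hest : ∀ (φ : Y → ℝ), LipschitzWith K φ → ∀ x ∈ s, ∀ x' ∈ s,
      dist (∫ a, φ (Λ a⁻¹ x) ∂ν) (∫ a, φ (Λ a⁻¹ x') ∂ν) ≤ (K * C) * dist x x' ^ b := by
    intro φ hφ x hx x' hx'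
    rw [dist_eq_norm]
    apply norm_avg_sub_le ν (hint φ hφ x hx) (hint φ hφ x' hx')
    intro a
    rw [← dist_eq_norm]
    calc dist (φ (Λ a⁻¹ x)) (φ (Λ a⁻¹ x')) ≤ K * dist (Λ a⁻¹ x) (Λ a⁻¹ x') := hφ.dist_le_mul _ _
      _ ≤ K * (C * dist x x' ^ b) := mul_le_mul_of_nonneg_left (hH _ x hx x' hx') K.2
      _ = (K * C) * dist x x' ^ b := by ring
  have hKC : 0 ≤ (K : ℝ) * C := by positivity
  apply null_image (Measure.addHaar) (C := Real.toNNReal (K * C)) (b := b.toNNReal)
  · apply holderOnWith_of_dist hKC hb0.le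
    intro x hx x' hx'
    have h0 : 0 ≤ (K : ℝ) * C * dist x x' ^ b := by positivity
    rw [Prod.dist_eq]
    apply max_le
    · rw [dist_pi_le_iff h0]
      exact fun i => hest _ (hf i) x hx x' hx'
    · rw [dist_pi_le_iff h0]
      exact fun i => hest _ (hg i) x hx x' hx'
  · exact Real.toNNReal_pos.mpr hb0
  · rw [Module.finrank_prod, Module.finrank_fin_fun, Module.finrank_fin_fun,
      Real.coe_toNNReal b hb0.le]
    push_cast
    exact hb

end Pool.Agent.Helper83.TF
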