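import Pool.Agent.Helper83.TF.Av

/-!
# Labels with values in an abelian group
-/

set_option autoImplicit false
set_option linter.unusedSectionVars false
set_option linter.unusedVariables false

open Set MeasureTheory Metric Filter Topology
open scoped NNReal ENNReal

namespace Pool.Agent.Helper83.TF

variable {G : Type*} [Group G] [TopologicalSpace G] [IsTopologicalGroup G] [CompactSpace G]
  {V : Type*} [NormedAddCommGroup V] [NormedSpace ℝ V] [FiniteDimensional ℝ V]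

/-- A ball with characters vanishing on the returns. -/
structure LQ (D : GM G V) {Q κ A : Type*} [AddCommGroup A] (Φ : Q → κ → G → A) where
  z : V
  ρ : ℝ
  q : Q
  hρ : 0 < ρ
  hU : closedBall z (2 * ρ) ⊆ D.U
  hom : ∀ c g h, Φ q c (g * h) = Φ q c g + Φ q c h
  ker : ∀ a, ∀ x ∈ ball z (2 * ρ), D.g a x ∈ ball z (2 * ρ) → ∀ c, Φ q c a = 0

section lq

variable {D : GM G V} {Q κ A : Type*} [AddCommGroup A] {Φ : Q → κ → G → A}

theorem exists_LQ {z : V} (hz : z ∈ D.U) (q : Q)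
    (hom : ∀ c g h, Φ q c (g * h) = Φ q c g + Φ q c h) {G₂ : Subgroup G}
    (hG₂ : IsOpen (G₂ : Set G)) (hker : ∀ c, ∀ g ∈ G₂, Φ q c g = 0)
    (h : ∀ a, D.g a z = z → ∀ c, Φ q c a = 0) :
    ∃ L : LQ D Φ, L.z = z ∧ L.q = q := by
  have hO : IsOpen {a : G | ∀ c, Φ q c a = 0} := by
    rw [isOpen_iff_mem_nhds]
    intro a ha
    have h1 : Continuous (fun b : G => a⁻¹ * b) := by fun_prop
    have h2 : (fun b : G => a⁻¹ * b) ⁻¹' (G₂ : Set G) ∈ 𝓝 a := by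
      apply (hG₂.preimage h1).mem_nhds
      change a⁻¹ * a ∈ G₂
      rw [inv_mul_cancel]
      exact G₂.one_mem
    filter_upwards [h2] with b hb c
    have h4 := hom c a (a⁻¹ * b)
    rw [mul_inv_cancel_left, hker c _ hb, add_zero] at h4
    rw [h4]
    exact ha c
  obtain ⟨ρ, hρ, hU, hst⟩ := exists_ball_stab D hz hO h
  exact ⟨⟨z, ρ, q, hρ, hU, hom, fun a x hx hax => hst a x hx hax⟩, rfl, rfl⟩

/-- Finite covers by balls with labels. -/
theorem exists_coverQ {C : Set V} (hC : IsCompact C) (hCU : C ⊆ D.U) (P : Q → Prop)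
    {G₂ : Subgroup G} (hG₂ : IsOpen (G₂ : Set G))
    (h : ∀ z ∈ C, ∃ q : Q, P q ∧ (∀ c g h, Φ q c (g * h) = Φ q c g + Φ q c h) ∧
      (∀ c, ∀ g ∈ G₂, Φ q c g = 0) ∧ ∀ a, D.g a z = z → ∀ c, Φ q c a = 0) :
    ∃ (M : ℕ) (L : Fin M → LQ D Φ), (∀ j, P (L j).q) ∧
      ∀ x ∈ C, ∃ j, x ∈ ball (L j).z (L j).ρ := by
  classical
  have h1 : ∀ z : C, ∃ L : LQ D Φ, L.z = z ∧ P L.q := by
    intro z
    obtain ⟨q, h2, h3, h4, h5⟩ := h z z.2
    obtain ⟨L, h6, h7⟩ := exists_LQ (hCU z.2) q h3 hG₂ h4 h5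
    exact ⟨L, h6, h7 ▸ h2⟩
  choose L hLz hLP using h1
  obtain ⟨t, ht⟩ := hC.elim_nhds_subcover' (fun z hz => ball z (L ⟨z, hz⟩).ρ)
    (fun z hz => ball_mem_nhds z (L ⟨z, hz⟩).hρ)
  refine ⟨t.card, fun j => L (t.equivFin.symm j), fun j => hLP _, ?_⟩
  intro x hx
  obtain ⟨z, hz, hxz⟩ := mem_iUnion₂.mp (ht hx)
  refine ⟨t.equivFin ⟨z, hz⟩, ?_⟩
  simp only [Equiv.symm_apply_apply]
  rw [hLz]
  exact hxz

open Classical in
/-- The label of a point. -/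
noncomputable def LQ.lab (L : LQ D Φ) (x : V) (c : κ) : A :=
  if h : ∃ a, D.g a x ∈ ball L.z L.ρ then -Φ L.q c h.choose else 0

theorem LQ.ball_sub (L : LQ D Φ) : ball L.z L.ρ ⊆ ball L.z (2 * L.ρ) :=
  ball_subset_ball (by linarith [L.hρ])

theorem LQ.inv (L : LQ D Φ) (c : κ) (a : G) : Φ L.q c a⁻¹ = -Φ L.q c a := by
  have h1 := L.hom c 1 1
  rw [one_mul] at h1
  have h2 : Φ L.q c 1 = 0 := by
    have := congrArg (fun v => v - Φ L.q c 1) h1
    simpa using this.symm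
  have h3 := L.hom c a⁻¹ a
  rw [inv_mul_cancel, h2] at h3
  exact eq_neg_of_add_eq_zero_left h3.symm

theorem LQ.lab_eq (L : LQ D Φ) {x : V} (hx : x ∈ D.U) {a : G}
    (ha : D.g a x ∈ ball L.z (2 * L.ρ)) (h : ∃ a, D.g a x ∈ ball L.z L.ρ) (c : κ) :
    L.lab x c = -Φ L.q c a := by
  unfold LQ.lab
  rw [dif_pos h]
  have h1 := h.choose_spec
  set b := h.choose with hb
  have h2 := L.ker (b * a⁻¹) (D.g a x) ha (by
    rw [← D.hgmul _ _ x hx, inv_mul_cancel_right]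
    exact L.ball_sub h1) c
  rw [L.hom, L.inv] at h2
  rw [add_neg_eq_zero.mp h2]

theorem LQ.lab_smul (L : LQ D Φ) {x : V} (hx : x ∈ D.U) (h : ∃ a, D.g a x ∈ ball L.z L.ρ)
    (g : G) (c : κ) : L.lab (D.g g x) c = L.lab x c + Φ L.q c g := by
  obtain ⟨a, ha⟩ := h
  have h1 : D.g (a * g⁻¹) (D.g g x) = D.g a x := by
    rw [← D.hgmul _ _ x hx, inv_mul_cancel_right]
  rw [L.lab_eq hx (L.ball_sub ha) ⟨a, ha⟩ c, L.lab_eq (D.hgU g x hx) (a := a * g⁻¹)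
    (by rw [h1]; exact L.ball_sub ha) ⟨a * g⁻¹, by rw [h1]; exact ha⟩ c]
  rw [L.hom, L.inv]
  abel

theorem LQ.lab_close (L : LQ D Φ) {x x' : V} (hx : x ∈ D.U) (hx' : x' ∈ D.U)
    (h : ∃ a, D.g a x ∈ ball L.z L.ρ) (h' : ∃ a, D.g a x' ∈ ball L.z L.ρ)
    (hd : ∀ a, dist (D.g a x) (D.g a x') < L.ρ) (c : κ) : L.lab x c = L.lab x' c := by
  obtain ⟨a, ha⟩ := h
  rw [L.lab_eq hx (L.ball_sub ha) ⟨a, ha⟩ c, L.lab_eq hx' (a := a) _ h' c]
  rw [mem_ball] at ha ⊢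
  have := dist_triangle_left (D.g a x') L.z (D.g a x)
  have := hd a
  linarith

/-- Colours, indices and labels from invariant functions and thresholds. -/
theorem labels_of_levels [Nonempty κ] {M : ℕ} (L : Fin M → LQ D Φ)
    {f : Fin M → V → ℝ} (t : Fin M → κ → ℝ) {lam : ℝ} (hlam : 0 < lam) {C S : Set V}
    (hC : IsCompact C) (hCU : C ⊆ D.U) (hSC : S ⊆ C)
    (hfc : ∀ j, ContinuousOn (f j) C) (hfi : ∀ j, ∀ x ∈ S, ∀ a, f j (D.g a x) = f j x)
    (hfe : ∀ x ∈ S, ∀ j c, t j c < f j x → ∃ a, D.g a x ∈ ball (L j).z (L j).ρ)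
    (h1 : ∀ x ∈ S, ∃ c, ∀ j, lam ≤ |f j x - t j c|)
    (h2 : ∀ x ∈ S, ∀ c, ∃ j, t j c < f j x) :
    ∃ (δ : ℝ) (cc : V → κ) (jj : V → ℕ) (ℓ : V → A), 0 < δ ∧
      (∀ x ∈ S, ∃ j : Fin M, jj x = j ∧ ∀ a, cc (D.g a x) = cc x ∧ jj (D.g a x) = jj x ∧
        ℓ (D.g a x) = ℓ x + Φ (L j).q (cc x) a) ∧
      (∀ x ∈ S, ∀ x' ∈ S, dist x x' < δ → cc x = cc x' → jj x = jj x' ∧ ℓ x = ℓ x') := by
  classical
  by_cases hS0 : S = ∅
  · subst hS0
    exact ⟨1, fun _ => Classical.arbitrary κ, fun _ => 0, fun _ => 0, one_pos, by simp, by simp⟩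
  obtain ⟨x₁, hx₁⟩ := nonempty_iff_ne_empty.mpr hS0
  have hMne : Nonempty (Fin M) := by
    obtain ⟨j, -⟩ := h2 x₁ hx₁ (Classical.arbitrary κ)
    exact ⟨j⟩
  have hSU : S ⊆ D.U := hSC.trans hCU
  -- scales
  have huc : ∀ j, ∃ δ : ℝ, 0 < δ ∧ ∀ x ∈ C, ∀ x' ∈ C, dist x x' < δ → |f j x - f j x'| < lam := by
    intro j
    have h3 := hC.uniformContinuousOn_of_continuous (hfc j)
    rw [Metric.uniformContinuousOn_iff] at h3
    obtain ⟨δ, hδ, h4⟩ := h3 lam hlam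
    exact ⟨δ, hδ, fun x hx x' hx' hd => h4 x hx x' hx' hd⟩
  have hun : ∀ j, ∃ δ : ℝ, 0 < δ ∧ ∀ x ∈ C, ∀ x' ∈ D.U, dist x x' < δ →
      ∀ a, dist (D.g a x) (D.g a x') < (L j).ρ := fun j => exists_unif D hC hCU (L j).hρ
  choose δ₁ hδ₁ huc using huc
  choose δ₂ hδ₂ hun using hun
  have hδ : ∃ δ : ℝ, 0 < δ ∧ ∀ j, δ ≤ δ₁ j ∧ δ ≤ δ₂ j := by
    have h3 : Finset.univ.Nonempty (α := Fin M) := Finset.univ_nonempty
    refine ⟨Finset.univ.inf' h3 fun j => min (δ₁ j) (δ₂ j), ?_, ?_⟩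
    · rw [Finset.lt_inf'_iff]
      exact fun j _ => lt_min (hδ₁ j) (hδ₂ j)
    · intro j
      have h4 := Finset.inf'_le (fun j => min (δ₁ j) (δ₂ j)) (Finset.mem_univ j)
      exact ⟨h4.trans (min_le_left _ _), h4.trans (min_le_right _ _)⟩
  obtain ⟨δ, hδ0, hδj⟩ := hδ
  -- colours and indices
  set cc : V → κ := fun x => Classical.epsilon (fun c : κ => ∀ j, lam ≤ |f j x - t j c|) with hcc
  have hccs : ∀ x ∈ S, ∀ j, lam ≤ |f j x - t j (cc x)| := fun x hx => Classical.epsilon_spec (h1 x hx)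
  set jj : V → Fin M := fun x => Classical.epsilon (fun j : Fin M => j ∈ {j | t j (cc x) < f j x})
    with hjj
  have hjjs : ∀ x ∈ S, t (jj x) (cc x) < f (jj x) x := by
    intro x hx
    have h3 : ∃ j : Fin M, j ∈ {j | t j (cc x) < f j x} := h2 x hx (cc x)
    exact Classical.epsilon_spec h3
  have hex : ∀ x ∈ S, ∃ a, D.g a x ∈ ball (L (jj x)).z (L (jj x)).ρ :=
    fun x hx => hfe x hx _ _ (hjjs x hx)
  have hcci : ∀ x ∈ S, ∀ a, cc (D.g a x) = cc x := by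
    intro x hx a
    simp only [hcc, hfi _ x hx a]
  have hjji : ∀ x ∈ S, ∀ a, jj (D.g a x) = jj x := by
    intro x hx a
    have h3 := hcci x hx a
    simp only [hjj, h3, hfi _ x hx a]
  refine ⟨δ, cc, fun x => jj x, fun x => (L (jj x)).lab x (cc x), hδ0, ?_, ?_⟩
  · intro x hx
    refine ⟨jj x, rfl, fun a => ?_⟩
    simp only
    rw [hcci x hx a, hjji x hx a]
    exact ⟨rfl, rfl, (L (jj x)).lab_smul (hSU hx) (hex x hx) a (cc x)⟩
  · intro x hx x' hx' hd hc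
    have hj : jj x = jj x' := by
      have h3 : {j | t j (cc x) < f j x} = {j | t j (cc x') < f j x'} := by
        ext j
        rw [mem_ofPred_eq, mem_ofPred_eq, hc]
        have h4 := hccs x hx j
        have h5 := hccs x' hx' j
        have h6 := huc j x (hSC hx) x' (hSC hx') (hd.trans_le (hδj j).1)
        rw [hc] at h4
        rw [abs_lt] at h6
        constructor
        · intro h7
          rw [abs_of_pos (by linarith)] at h4
          linarith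
        · intro h7
          rw [abs_of_pos (by linarith)] at h5
          linarith
      simp only [hjj, h3]
    simp only
    rw [← hc, ← hj]
    refine ⟨rfl, ?_⟩
    apply (L (jj x)).lab_close (hSU hx) (hSU hx') (hex x hx)
    · rw [hj]
      exact hex x' hx'
    · exact hun (jj x) x (hSC hx) x' (hSU hx') (hd.trans_le (hδj _).2)

end lq

end Pool.Agent.Helper83.TF
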