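import Pool.Agent.Helper83.TF.Sard

/-!
# Actions of compact groups in a chart: averages, and perturbations on sets of finite type
-/

set_option autoImplicit false
set_option linter.unusedSectionVars false
set_option linter.unusedVariables false

open Set MeasureTheory Metric Filter Topology
open scoped NNReal ENNReal

namespace Pool.Agent.Helper83.TF

open Pool.Agent.Helper3.HS

/-- An action of the group `G` on a bounded open set. -/
structure GM (G V : Type*) [Group G] [TopologicalSpace G] [NormedAddCommGroup V] where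
  U : Set V
  g : G → V → V
  hU : IsOpen U
  hUb : Bornology.IsBounded U
  hg : ∀ a, Continuous (g a)
  hgj : ContinuousOn (fun q : G × V => g q.1 q.2) (univ ×ˢ U)
  hgU : ∀ a, ∀ x ∈ U, g a x ∈ U
  hg1 : ∀ x ∈ U, g 1 x = x
  hgmul : ∀ a b, ∀ x ∈ U, g (a * b) x = g a (g b x)

variable {G : Type*} [Group G] [TopologicalSpace G] [IsTopologicalGroup G] [CompactSpace G]
  {V : Type*} [NormedAddCommGroup V] [NormedSpace ℝ V] [FiniteDimensional ℝ V]
  {W : Type*} [NormedAddCommGroup W] [NormedSpace ℝ W] [FiniteDimensional ℝ W]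

namespace GM

variable (D : GM G V)

theorem inv (a : G) {x : V} (hx : x ∈ D.U) : D.g a⁻¹ (D.g a x) = x := by
  rw [← D.hgmul _ _ x hx, inv_mul_cancel, D.hg1 x hx]

theorem inv' (a : G) {x : V} (hx : x ∈ D.U) : D.g a (D.g a⁻¹ x) = x := by
  rw [← D.hgmul _ _ x hx, mul_inv_cancel, D.hg1 x hx]

theorem continuous_orbit {x : V} (hx : x ∈ D.U) : Continuous (fun a : G => D.g a x) := by
  have h1 : Continuous (fun a : G => ((a, x) : G × V)) := by fun_prop
  exact D.hgj.comp_continuous h1 (fun a => ⟨mem_univ _, hx⟩)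

theorem continuousAt_swap {x : V} (hx : x ∈ D.U) (a : G) :
    ContinuousAt (fun q : V × G => D.g q.2 q.1) (x, a) := by
  have h3 : ContinuousAt (fun q : G × V => D.g q.1 q.2) (a, x) :=
    D.hgj.continuousAt ((isOpen_univ.prod D.hU).mem_nhds ⟨mem_univ _, hx⟩)
  exact ContinuousAt.comp (g := fun q : G × V => D.g q.1 q.2)
    (f := fun q : V × G => (q.2, q.1)) (x := (x, a)) h3 (by fun_prop)

/-- The saturation of a compact set is compact. -/
theorem compact_sat {B : Set V} (hB : IsCompact B) (hBU : B ⊆ D.U) {S : Set G}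
    (hS : IsCompact S) : IsCompact ((fun q : G × V => D.g q.1 q.2) '' (S ×ˢ B)) := by
  apply (hS.prod hB).image_of_continuousOn
  exact D.hgj.mono (prod_mono (subset_univ _) hBU)

theorem sat_sub {B : Set V} (hBU : B ⊆ D.U) {S : Set G} :
    (fun q : G × V => D.g q.1 q.2) '' (S ×ˢ B) ⊆ D.U := by
  rintro _ ⟨⟨a, x⟩, ⟨-, hx⟩, rfl⟩
  exact D.hgU a x (hBU hx)

end GM

/-- Invariance. -/
def InvM (D : GM G V) {E : Type*} (f : V → E) : Prop := ∀ a, ∀ x ∈ D.U, f (D.g a x) = f x

/-- A function that is zero outside a compact subset of `U`, composed with the action. -/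
theorem continuous_jointM (D : GM G V) {ψ₀ : V → W} (hψ : Continuous ψ₀) {B : Set V}
    (hB : IsCompact B) (hBU : B ⊆ D.U) (h0 : ∀ x ∉ B, ψ₀ x = 0) [DecidablePred (· ∈ D.U)] :
    Continuous (fun q : V × G => if q.1 ∈ D.U then ψ₀ (D.g q.2 q.1) else 0) := by
  have : ProperSpace V := FiniteDimensional.proper ℝ V
  set K : Set V := (fun q : G × V => D.g q.1 q.2) '' (univ ×ˢ B) with hK
  have hKcomp : IsCompact K := D.compact_sat hB hBU isCompact_univ
  have hKU : K ⊆ D.U := D.sat_sub hBU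
  have hKmem : ∀ x ∈ D.U, x ∉ K → ∀ a, ψ₀ (D.g a x) = 0 := by
    intro x hx hxK a
    apply h0
    intro h
    exact hxK ⟨(a⁻¹, D.g a x), ⟨mem_univ _, h⟩, D.inv a hx⟩
  rw [continuous_iff_continuousAt]
  rintro ⟨x, a⟩
  by_cases hx : x ∈ D.U
  · have h5 : ContinuousAt (fun q : V × G => ψ₀ (D.g q.2 q.1)) (x, a) :=
      hψ.continuousAt.comp (D.continuousAt_swap hx a)
    apply h5.congr
    filter_upwards [(D.hU.prod isOpen_univ).mem_nhds (⟨hx, mem_univ a⟩ : (x, a) ∈ D.U ×ˢ univ)]
      with q hq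
    rw [if_pos hq.1]
  · have hxK : x ∉ K := fun h => hx (hKU h)
    apply (continuousAt_const (y := (0 : W))).congr
    filter_upwards [(hKcomp.isClosed.isOpen_compl.prod isOpen_univ).mem_nhds
      (⟨hxK, mem_univ a⟩ : (x, a) ∈ Kᶜ ×ˢ univ)] with q hq
    split_ifs with h
    · exact (hKmem q.1 h hq.1 q.2).symm
    · rfl

section avg

variable [MeasurableSpace G] [BorelSpace G] {ν : Measure G} [ν.IsHaarMeasure]
  [IsProbabilityMeasure ν]

/-- **Averages.** Let `ψ₀` be continuous and zero outside a compact subset `B` of `U`. -/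
theorem exists_avgM (D : GM G V) (ν : Measure G) [ν.IsHaarMeasure] [IsProbabilityMeasure ν]
    {ψ₀ : V → W} (hψ : Continuous ψ₀) {B : Set V}
    (hB : IsCompact B) (hBU : B ⊆ D.U) (h0 : ∀ x ∉ B, ψ₀ x = 0) {M : ℝ} (hM : ∀ x, ‖ψ₀ x‖ ≤ M) :
    ∃ A : V → W, Continuous A ∧ InvM D A ∧ (∀ x, ‖A x‖ ≤ M) ∧
      (∀ x ∈ D.U, A x = ∫ a, ψ₀ (D.g a⁻¹ x) ∂ν) ∧ (∀ x ∉ D.U, A x = 0) ∧
      ∀ x ∈ D.U, ∀ S : Set G, MeasurableSet S → (∀ a ∈ S, ψ₀ (D.g a⁻¹ x) = ψ₀ x) →
        (∀ a, a ∉ S → ψ₀ (D.g a⁻¹ x) = 0) → A x = (ν S).toReal • ψ₀ x := by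
  classical
  have : ProperSpace V := FiniteDimensional.proper ℝ V
  have : ProperSpace W := FiniteDimensional.proper ℝ W
  have hj := continuous_jointM D hψ hB hBU h0
  set f : V → G → W := fun x a => if x ∈ D.U then ψ₀ (D.g a⁻¹ x) else 0 with hf
  have hfc : Continuous (Function.uncurry f) := by
    have h1 : Continuous (fun q : V × G => (q.1, q.2⁻¹)) := by fun_prop
    exact hj.comp h1
  have hfM : ∀ x a, ‖f x a‖ ≤ M := by
    intro x a
    simp only [hf]
    split_ifs
    · exact hM _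
    · rw [norm_zero]
      exact (norm_nonneg _).trans (hM x)
  refine ⟨fun x => ∫ a, f x a ∂ν, ?_, ?_, ?_, ?_, ?_, ?_⟩
  · have h1 := continuous_parametric_integral_of_continuous (μ := ν) hfc isCompact_univ
    simp only [Measure.restrict_univ] at h1
    exact h1
  · intro b x hx
    have hbU := D.hgU b x hx
    have h1 : ∀ a, f (D.g b x) a = f x (b⁻¹ * a) := by
      intro a
      simp only [hf]
      rw [if_pos hbU, if_pos hx, mul_inv_rev, inv_inv, D.hgmul _ _ x hx]
    simp only [h1]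
    exact integral_mul_left_eq_self (fun a => f x a) b⁻¹
  · intro x
    have h2 := norm_integral_le_of_norm_le_const (μ := ν) (f := f x) (C := M)
      (ae_of_all _ fun a => hfM x a)
    simpa using h2
  · intro x hx
    apply integral_congr_ae
    exact ae_of_all _ fun a => if_pos hx
  · intro x hx
    have h1 : ∀ a, f x a = 0 := fun a => if_neg hx
    simp only [h1]
    simp
  · intro x hx S hS h1 h2
    have h3 : ∀ a, f x a = S.indicator (fun _ => ψ₀ x) a := by
      intro a
      simp only [hf]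
      rw [if_pos hx]
      by_cases ha : a ∈ S
      · rw [indicator_of_mem ha, h1 a ha]
      · rw [indicator_of_notMem ha, h2 a ha]
    simp only [h3]
    rw [integral_indicator hS, integral_const, measureReal_def, Measure.restrict_apply_univ]

end avg

/-! ### Perturbations -/

variable [MeasurableSpace V] [BorelSpace V]

/-- The property that maps can be moved off `y` on `Z` by small invariant perturbations. -/
def MvM (D : GM G V) (y : V) (Z : Set V) : Prop :=
  ∀ F : V → V, ContinuousOn F (closure D.U) → ∀ ε : ℝ, 0 < ε →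
    ∃ ψ : V → V, Continuous ψ ∧ InvM D ψ ∧ (∀ x, ‖ψ x‖ ≤ ε) ∧ ∀ x ∈ Z, F x + ψ x ≠ y

theorem MvM.mono {D : GM G V} {y : V} {Z Z' : Set V} (h : MvM D y Z') (hZ : Z ⊆ Z') :
    MvM D y Z := by
  intro F hF ε hε
  obtain ⟨ψ, h1, h2, h3, h4⟩ := h F hF ε hε
  exact ⟨ψ, h1, h2, h3, fun x hx => h4 x (hZ hx)⟩

theorem MvM.empty (D : GM G V) (y : V) : MvM D y ∅ := by
  intro F hF ε hε
  exact ⟨fun _ => 0, continuous_const, fun _ _ _ => rfl, fun _ => by simpa using hε.le,
    fun x hx => hx.elim⟩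

theorem InvM.add {D : GM G V} {f g : V → W} (hf : InvM D f) (hg : InvM D g) :
    InvM D (fun x => f x + g x) := by
  intro a x hx
  simp only
  rw [hf a x hx, hg a x hx]

theorem MvM.union {D : GM G V} {y : V} {Z Z' : Set V} (hZ : IsCompact Z) (hZU : Z ⊆ D.U)
    (h : MvM D y Z) (h' : MvM D y Z') : MvM D y (Z ∪ Z') := by
  intro F hF ε hε
  obtain ⟨ψ₁, h1, h2, h3, h4⟩ := h F hF (ε / 2) (half_pos hε)
  have hF1 : ContinuousOn (fun x => F x + ψ₁ x) (closure D.U) := hF.add h1.continuousOn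
  obtain ⟨r, hr, hgap⟩ := exists_gap hZ (hF1.mono (hZU.trans subset_closure)) (y := y) h4
  obtain ⟨ψ₂, h5, h6, h7, h8⟩ := h' _ hF1 (min (ε / 2) r) (lt_min (half_pos hε) hr)
  refine ⟨fun x => ψ₁ x + ψ₂ x, h1.add h5, h2.add h6, fun x => ?_, ?_⟩
  · calc ‖ψ₁ x + ψ₂ x‖ ≤ ‖ψ₁ x‖ + ‖ψ₂ x‖ := norm_add_le _ _
      _ ≤ ε / 2 + ε / 2 := add_le_add (h3 x) ((h7 x).trans (min_le_left _ _))
      _ = ε := add_halves ε
  · rintro x (hx | hx) heq
    · have h9 := hgap x hx
      have h10 : dist (F x + ψ₁ x) y ≤ r := by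
        rw [← heq, ← add_assoc, dist_self_add_right]
        exact (h7 x).trans (min_le_right _ _)
      linarith
    · apply h8 x hx
      rw [add_assoc]
      exact heq

/-- Local to global. -/
theorem MvM.of_local {D : GM G V} {y : V} {Z : Set V} (hZ : IsCompact Z) (hZU : Z ⊆ D.U)
    (h : ∀ x ∈ Z, ∃ N ∈ 𝓝 x, IsClosed N ∧ MvM D y (N ∩ Z)) : MvM D y Z := by
  have h1 : ∃ K : Set V, IsCompact K ∧ K ⊆ D.U ∧ Z ⊆ K ∧ MvM D y K := by
    apply hZ.induction_on (p := fun s => ∃ K : Set V, IsCompact K ∧ K ⊆ D.U ∧ s ⊆ K ∧ MvM D y K)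
    · exact ⟨∅, isCompact_empty, empty_subset _, Subset.rfl, MvM.empty D y⟩
    · rintro s t hst ⟨K, h1, h2, h3, h4⟩
      exact ⟨K, h1, h2, hst.trans h3, h4⟩
    · rintro s t ⟨K, h1, h2, h3, h4⟩ ⟨K', h1', h2', h3', h4'⟩
      exact ⟨K ∪ K', h1.union h1', union_subset h2 h2', union_subset_union h3 h3',
        MvM.union h1 h2 h4 h4'⟩
    · intro x hx
      obtain ⟨N, hN, hNc, hMv⟩ := h x hx
      refine ⟨N ∩ Z, inter_mem (mem_nhdsWithin_of_mem_nhds hN) self_mem_nhdsWithin, N ∩ Z,
        hZ.inter_left hNc, inter_subset_right.trans hZU, Subset.rfl, hMv⟩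
  obtain ⟨K, -, -, h3, h4⟩ := h1
  exact h4.mono h3

/-- The Haar probability measure. -/
theorem exists_haarM (G : Type*) [Group G] [TopologicalSpace G] [IsTopologicalGroup G]
    [CompactSpace G] : ∃ (_ : MeasurableSpace G) (_ : BorelSpace G) (ν : Measure G)
      (_ : ν.IsHaarMeasure), IsProbabilityMeasure ν := by
  let _ : MeasurableSpace G := borel G
  have hB : BorelSpace G := ⟨rfl⟩
  refine ⟨borel G, hB, Measure.haarMeasure (⊤ : TopologicalSpace.PositiveCompacts G),
    inferInstance, ?_⟩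
  constructor
  have := Measure.haarMeasure_self (K₀ := (⊤ : TopologicalSpace.PositiveCompacts G))
  simpa using this

/-- **The local step.** -/
theorem mvM_local (D : GM G V) (y : V) {Z : Set V} (hZc : IsClosed Z) (hZ0 : interior Z = ∅)
    {S : Set G} (hSo : IsOpen S) (hS1 : (1 : G) ∈ S) (hSi : ∀ a, a ∈ S ↔ a⁻¹ ∈ S)
    (hfin : ∀ x ∈ Z, ∀ a ∈ S, D.g a x = x)
    {x₀ : V} (hx₀ : x₀ ∈ D.U) (hm : ∀ a, a ∉ S → D.g a x₀ ≠ x₀) :
    ∃ N ∈ 𝓝 x₀, IsClosed N ∧ MvM D y (N ∩ Z) := by
  classical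
  have : ProperSpace V := FiniteDimensional.proper ℝ V
  obtain ⟨_, _, ν, _, _⟩ := exists_haarM G
  have hSc : IsCompact Sᶜ := hSo.isClosed_compl.isCompact
  have hKc : IsCompact ((fun a : G => D.g a x₀) '' Sᶜ) := hSc.image (D.continuous_orbit hx₀)
  have hKx : x₀ ∉ (fun a : G => D.g a x₀) '' Sᶜ := by
    rintro ⟨a, ha, hax⟩
    exact hm a ha hax
  obtain ⟨ρ, hρ, hρK⟩ : ∃ ρ : ℝ, 0 < ρ ∧ closedBall x₀ ρ ⊆
      D.U ∩ ((fun a : G => D.g a x₀) '' Sᶜ)ᶜ := by
    have h1 : D.U ∩ ((fun a : G => D.g a x₀) '' Sᶜ)ᶜ ∈ 𝓝 x₀ :=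
      inter_mem (D.hU.mem_nhds hx₀) (hKc.isClosed.isOpen_compl.mem_nhds hKx)
    obtain ⟨ρ, hρ, h⟩ := Metric.nhds_basis_closedBall.mem_iff.mp h1
    exact ⟨ρ, hρ, h⟩
  have hρU : closedBall x₀ ρ ⊆ D.U := fun x hx => (hρK hx).1
  have hev : ∀ᶠ x in 𝓝 x₀, ∀ a ∈ Sᶜ, D.g a x ∉ closedBall x₀ ρ := by
    apply hSc.eventually_forall_of_forall_eventually
    intro a ha
    have h3 : D.g a x₀ ∉ closedBall x₀ ρ := fun h => (hρK h).2 ⟨a, ha, rfl⟩
    exact (D.continuousAt_swap hx₀ a).preimage_mem_nhds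
      (isClosed_closedBall.isOpen_compl.mem_nhds h3)
  obtain ⟨ρ', hρ', hball⟩ := Metric.nhds_basis_closedBall.mem_iff.mp
    (inter_mem hev (ball_mem_nhds x₀ hρ))
  refine ⟨closedBall x₀ ρ', closedBall_mem_nhds _ hρ', isClosed_closedBall, ?_⟩
  intro F hF ε hε
  obtain ⟨F', hF'c, hF'⟩ := exists_tietze isClosed_closure hF
  -- the measure of `S`
  set c : ℝ := (ν S).toReal with hc
  have hc0 : 0 < c := ENNReal.toReal_pos
    (hSo.measure_pos ν ⟨1, hS1⟩).ne' (measure_ne_top ν S)
  -- the approximation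
  obtain ⟨T, hT, hTF, hTZ⟩ := exists_approx_ne hF'c hZc hZ0 y x₀ ρ
    (by positivity : 0 < c * ε)
  -- the cutoff
  have hdis : Disjoint (ball x₀ ρ)ᶜ (closedBall x₀ ρ') := by
    rw [Set.disjoint_left]
    intro x hx hx'
    exact hx (hball hx').2
  obtain ⟨lam, hlam1, hlam2, hlam3⟩ := exists_continuous_zero_one_of_isClosed
    isOpen_ball.isClosed_compl isClosed_closedBall hdis
  set ψ₀ : V → V := fun x => lam x • (T x - F' x) with hψ₀
  have hψ₀c : Continuous ψ₀ := lam.continuous.smul (hT.sub hF'c)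
  have hψ₀0 : ∀ x ∉ closedBall x₀ ρ, ψ₀ x = 0 := by
    intro x hx
    have h1 : lam x = 0 := hlam1 (fun h => hx (ball_subset_closedBall h))
    rw [hψ₀]
    simp only
    rw [h1, zero_smul]
  have hψ₀b : ∀ x, ‖ψ₀ x‖ ≤ c * ε := by
    intro x
    by_cases hx : x ∈ closedBall x₀ ρ
    · rw [hψ₀]
      simp only
      rw [norm_smul]
      have h1 : ‖lam x‖ ≤ 1 := by
        rw [Real.norm_eq_abs, abs_le]
        have := hlam3 x
        constructor
        · linarith [this.1]
        · exact this.2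
      calc ‖lam x‖ * ‖T x - F' x‖ ≤ 1 * (c * ε) :=
            mul_le_mul h1 (hTF x hx) (norm_nonneg _) zero_le_one
        _ = c * ε := one_mul _
    · rw [hψ₀0 x hx, norm_zero]
      positivity
  obtain ⟨A, hA1, hA2, hA3, -, -, hA4⟩ := exists_avgM D ν hψ₀c
    (isCompact_closedBall x₀ ρ) hρU hψ₀0 hψ₀b
  refine ⟨fun x => c⁻¹ • A x, hA1.const_smul _, ?_, ?_, ?_⟩
  · intro a x hx
    simp only
    rw [hA2 a x hx]
  · intro x
    rw [norm_smul, norm_inv, Real.norm_of_nonneg hc0.le]
    calc c⁻¹ * ‖A x‖ ≤ c⁻¹ * (c * ε) := by gcongr; exact hA3 x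
      _ = ε := by field_simp
  · rintro x ⟨hxN, hxZ⟩ heq
    have hxU : x ∈ D.U := hρU (ball_subset_closedBall (hball hxN).2)
    have h1 : A x = c • ψ₀ x := hA4 x hxU S hSo.measurableSet
      (fun a ha => by rw [hfin x hxZ a⁻¹ ((hSi a).1 ha)])
      (fun a ha => hψ₀0 _ ((hball hxN).1 a⁻¹ (fun h => ha ((hSi a).2 h))))
    simp only [h1] at heq
    rw [smul_smul, inv_mul_cancel₀ hc0.ne', one_smul, hψ₀] at heq
    simp only at heq
    have h3 : lam x = 1 := hlam2 hxN
    rw [h3, one_smul, hF' x (subset_closure hxU)] at heq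
    apply hTZ x hxZ
    rw [← heq]
    abel

/-- **Finite type.** If the open subgroup `L` fixes all points of the compact set `Z`, which has
empty interior, then all maps can be perturbed off `y` on `Z` by invariant maps. -/
theorem mvM_fin (D : GM G V) (y : V) {L : Subgroup G}
    (hL : IsOpen (L : Set G)) {Z : Set V} (hZ : IsCompact Z) (hZU : Z ⊆ D.U)
    (hZ0 : interior Z = ∅) (hfin : ∀ x ∈ Z, ∀ a ∈ L, D.g a x = x) : MvM D y Z := by
  classical
  have : Finite (G ⧸ L) := L.quotient_finite_of_isOpen hL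
  have : Fintype (G ⧸ L) := Fintype.ofFinite _
  -- the cosets fixing a point
  set c : V → Finset (G ⧸ L) := fun x => Finset.univ.filter fun q => D.g q.out x = x with hcdef
  have hout : ∀ a : G, ∀ x ∈ D.U, (∀ b ∈ L, D.g b x = x) →
      D.g ((a : G ⧸ L)).out x = D.g a x := by
    intro a x hx hL'
    have h1 : a⁻¹ * ((a : G ⧸ L)).out ∈ L := by
      have h2 : (a : G ⧸ L) = ((((a : G ⧸ L)).out : G) : G ⧸ L) := (Quotient.out_eq' _).symm
      exact QuotientGroup.eq.1 h2
    have e : ((a : G ⧸ L)).out = a * (a⁻¹ * ((a : G ⧸ L)).out) := by group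
    rw [e, D.hgmul _ _ x hx, hL' _ h1]
  have key : ∀ j k : ℕ, k + j = Fintype.card (G ⧸ L) + 1 → ∀ Z' : Set V, IsCompact Z' →
      Z' ⊆ Z → (∀ x ∈ Z', k ≤ (c x).card) → MvM D y Z' := by
    intro j
    induction j with
    | zero =>
      intro k hk Z' hZ' hZZ hc
      have h1 : Z' = ∅ := by
        rw [eq_empty_iff_forall_notMem]
        intro x hx
        have h2 := hc x hx
        have h3 : (c x).card ≤ Fintype.card (G ⧸ L) := Finset.card_le_univ _
        omega
      rw [h1]
      exact MvM.empty D y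
    | succ j ih =>
      intro k hk Z' hZ' hZZ hc F hF ε hε
      set Z₁ : Set V := {x | x ∈ Z' ∧ k + 1 ≤ (c x).card} with hZ₁
      have hZ₁c : IsCompact Z₁ := by
        have h1 : Z₁ = Z' ∩ ⋃ T ∈ (Finset.univ.filter fun T : Finset (G ⧸ L) => k + 1 ≤ T.card),
            ⋂ q ∈ T, {x | D.g q.out x = x} := by
          ext x
          simp only [hZ₁, mem_ofPred_eq, mem_inter_iff, Finset.mem_filter, Finset.mem_univ,
            true_and, mem_iUnion, mem_iInter, exists_prop]
          constructor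
          · rintro ⟨h1, h2⟩
            refine ⟨h1, c x, h2, ?_⟩
            intro q hq
            exact (Finset.mem_filter.1 hq).2
          · rintro ⟨h1, T, h2, h3⟩
            refine ⟨h1, h2.trans (Finset.card_le_card ?_)⟩
            intro q hq
            exact Finset.mem_filter.2 ⟨Finset.mem_univ _, h3 q hq⟩
        rw [h1]
        apply hZ'.inter_right
        apply (Finset.finite_toSet _).isClosed_biUnion
        intro T _
        exact isClosed_biInter fun q _ => isClosed_eq (D.hg _) continuous_id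
      have hZ₁Z : Z₁ ⊆ Z' := fun x hx => hx.1
      obtain ⟨ψ₁, h1, h2, h3, h4⟩ := ih (k + 1) (by omega) Z₁ hZ₁c (hZ₁Z.trans hZZ)
        (fun x hx => hx.2) F hF (ε / 2) (half_pos hε)
      have hF1 : ContinuousOn (fun x => F x + ψ₁ x) (closure D.U) := hF.add h1.continuousOn
      obtain ⟨r, hr, hgap⟩ := exists_gap hZ₁c
        (hF1.mono ((hZ₁Z.trans (hZZ.trans hZU)).trans subset_closure)) (y := y) h4
      set Z₂ : Set V := {x | x ∈ Z' ∧ dist (F x + ψ₁ x) y ≤ 2 * r} with hZ₂
      have hZ₂Z : Z₂ ⊆ Z' := fun x hx => hx.1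
      have hZ'U : Z' ⊆ D.U := hZZ.trans hZU
      have hZ₂c : IsCompact Z₂ := by
        have h5 : ContinuousOn (fun x => dist (F x + ψ₁ x) y) Z' :=
          (continuous_id.dist continuous_const).comp_continuousOn
            (hF1.mono (hZ'U.trans subset_closure))
        have h6 : Z₂ = Z' ∩ (fun x => dist (F x + ψ₁ x) y) ⁻¹' (Iic (2 * r)) := rfl
        rw [h6]
        exact hZ'.of_isClosed_subset (h5.preimage_isClosed_of_isClosed hZ'.isClosed isClosed_Iic)
          inter_subset_left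
      have hcard : ∀ x ∈ Z₂, (c x).card ≤ k := by
        intro x hx
        by_contra hcon
        push Not at hcon
        have h5 := hgap x ⟨hx.1, hcon⟩
        have h6 := hx.2
        linarith
      have hMv : MvM D y Z₂ := by
        apply MvM.of_local hZ₂c (hZ₂Z.trans hZ'U)
        intro x₀ hx₀
        have hx₀U : x₀ ∈ D.U := hZ'U (hZ₂Z hx₀)
        have hfx₀ := hfin x₀ (hZZ (hZ₂Z hx₀))
        set S : Set G := {a | D.g a x₀ = x₀} with hS
        have hSc : ∀ a, a ∈ S ↔ (a : G ⧸ L) ∈ c x₀ := by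
          intro a
          simp only [hS, hcdef, mem_ofPred_eq, Finset.mem_filter, Finset.mem_univ, true_and]
          rw [hout a x₀ hx₀U hfx₀]
        have hSo : IsOpen S := by
          have h5 : S = ⋃ a ∈ S, (fun b => a * b) '' (L : Set G) := by
            ext b
            simp only [mem_iUnion, exists_prop]
            constructor
            · intro hb
              exact ⟨b, hb, 1, L.one_mem, mul_one b⟩
            · rintro ⟨a, ha, l, hl, rfl⟩
              change D.g (a * l) x₀ = x₀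
              rw [D.hgmul a l x₀ hx₀U, hfx₀ l hl]
              exact ha
          rw [h5]
          exact isOpen_biUnion fun a _ => isOpenMap_mul_left a _ hL
        have hSi : ∀ a, a ∈ S ↔ a⁻¹ ∈ S := by
          have h5 : ∀ a, a ∈ S → a⁻¹ ∈ S := by
            intro a ha
            have ha' : D.g a x₀ = x₀ := ha
            have h6 := D.inv a hx₀U
            rw [ha'] at h6
            exact h6
          intro a
          constructor
          · exact h5 a
          · intro h
            have := h5 _ h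
            rwa [inv_inv] at this
        have hnear : ∀ᶠ x in 𝓝 x₀, ∀ q : G ⧸ L, q ∉ c x₀ → D.g q.out x ≠ x := by
          rw [Filter.eventually_all]
          intro q
          by_cases hq : q ∈ c x₀
          · exact Filter.Eventually.of_forall fun x h => absurd hq h
          · have h5 : D.g q.out x₀ ≠ x₀ := fun h => hq
              (Finset.mem_filter.2 ⟨Finset.mem_univ _, h⟩)
            have h6 : ∀ᶠ x in 𝓝 x₀, D.g q.out x ≠ x :=
              (isClosed_eq (D.hg q.out) continuous_id).isOpen_compl.mem_nhds h5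
            filter_upwards [h6] with x hx _ using hx
        obtain ⟨ρ, hρ, hρb⟩ := Metric.nhds_basis_closedBall.mem_iff.mp hnear
        obtain ⟨N, hN, hNc, hMv⟩ := mvM_local D y (Z := Z₂ ∩ closedBall x₀ ρ)
          (hZ₂c.isClosed.inter isClosed_closedBall)
          (by
            rw [← subset_empty_iff, ← hZ0]
            exact interior_mono (inter_subset_left.trans (hZ₂Z.trans hZZ))) hSo
          (D.hg1 x₀ hx₀U) hSi (by
            rintro x ⟨hxZ, hxρ⟩ a ha
            have hxU := hZ'U (hZ₂Z hxZ)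
            have h7 : c x ⊆ c x₀ := by
              intro q hq
              by_contra hcon
              exact hρb hxρ q hcon (Finset.mem_filter.1 hq).2
            have h8 : c x = c x₀ := Finset.eq_of_subset_of_card_le h7
              ((hcard x₀ hx₀).trans (hc x (hZ₂Z hxZ)))
            have h9 : (a : G ⧸ L) ∈ c x := by
              rw [h8]
              exact (hSc a).1 ha
            have h10 := (Finset.mem_filter.1 h9).2
            rwa [hout a x hxU (hfin x (hZZ (hZ₂Z hxZ)))] at h10)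
          hx₀U (fun a ha h => ha h)
        refine ⟨N ∩ closedBall x₀ ρ, inter_mem hN (closedBall_mem_nhds _ hρ),
          hNc.inter isClosed_closedBall, hMv.mono ?_⟩
        rintro x ⟨⟨h5, h6⟩, h7⟩
        exact ⟨h5, h7, h6⟩
      obtain ⟨ψ₂, h5, h6, h7, h8⟩ := hMv _ hF1 (min (ε / 2) r) (lt_min (half_pos hε) hr)
      refine ⟨fun x => ψ₁ x + ψ₂ x, h1.add h5, h2.add h6, fun x => ?_, ?_⟩
      · calc ‖ψ₁ x + ψ₂ x‖ ≤ ‖ψ₁ x‖ + ‖ψ₂ x‖ := norm_add_le _ _
          _ ≤ ε / 2 + ε / 2 := add_le_add (h3 x) ((h7 x).trans (min_le_left _ _))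
          _ = ε := add_halves ε
      · intro x hx heq
        by_cases hx2 : dist (F x + ψ₁ x) y ≤ 2 * r
        · apply h8 x ⟨hx, hx2⟩
          rw [add_assoc]
          exact heq
        · apply hx2
          rw [← heq, ← add_assoc, dist_self_add_right]
          have := (h7 x).trans (min_le_right _ _)
          linarith
  exact key (Fintype.card (G ⧸ L) + 1) 0 (by omega) Z hZ Subset.rfl (fun x hx => Nat.zero_le _)

end Pool.Agent.Helper83.TF
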