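import Pool.Agent.Helper83.TF.GMul

/-!
# Averages of functions over a compact group acting on an open set
-/

set_option autoImplicit false
set_option linter.unusedSectionVars false
set_option linter.unusedVariables false

open Set MeasureTheory Metric Filter Topology
open scoped NNReal ENNReal

namespace Pool.Agent.Helper83.TF

variable {G : Type*} [Group G] [TopologicalSpace G] [IsTopologicalGroup G] [CompactSpace G]
  {V : Type*} [NormedAddCommGroup V] [NormedSpace ℝ V] [FiniteDimensional ℝ V]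

/-! ### Topology of the action -/

section top

variable (D : GM G V)

/-- If `O` is an open set of group elements containing the stabiliser of `z`, the elements that
map a point of a small neighbourhood of `z` to another one are in `O`. -/
theorem exists_ball_stab {z : V} (hz : z ∈ D.U) {O : Set G} (hO : IsOpen O)
    (h : ∀ a, D.g a z = z → a ∈ O) : ∃ ρ : ℝ, 0 < ρ ∧ closedBall z (2 * ρ) ⊆ D.U ∧
      ∀ a, ∀ x ∈ ball z (2 * ρ), D.g a x ∈ ball z (2 * ρ) → a ∈ O := by
  have hc : IsCompact Oᶜ := hO.isClosed_compl.isCompact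
  have h1 : ∀ᶠ q : V × V in 𝓝 (z, z), ∀ a ∈ Oᶜ, D.g a q.1 ≠ q.2 := by
    have h2 := hc.eventually_forall_of_forall_eventually (x₀ := (z, z))
      (P := fun (q : V × V) (a : G) => D.g a q.1 ≠ q.2) ?_
    · exact h2
    · intro a ha
      have h3 : ContinuousAt (fun q : (V × V) × G => D.g q.2 q.1.1) ((z, z), a) := by
        have h4 := D.continuousAt_swap hz a
        exact ContinuousAt.comp (g := fun q : V × G => D.g q.2 q.1)
          (f := fun q : (V × V) × G => (q.1.1, q.2)) (x := ((z, z), a)) h4 (by fun_prop)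
      have h5 : ContinuousAt (fun q : (V × V) × G => q.1.2) ((z, z), a) := by fun_prop
      have h6 := (h3.prodMk h5).eventually_mem
        (isClosed_diagonal.isOpen_compl.mem_nhds (fun heq => ha (h a heq)))
      exact h6
  rw [nhds_prod_eq] at h1
  obtain ⟨t, ht, Pb, hPb, hsub⟩ := eventually_prod_iff.mp h1
  have h7 : ∀ᶠ x in 𝓝 z, t x ∧ Pb x ∧ x ∈ D.U := ht.and (hPb.and (D.hU.mem_nhds hz))
  obtain ⟨ε, hε, hball⟩ := Metric.eventually_nhds_iff_ball.mp h7
  refine ⟨ε / 4, by positivity, ?_, ?_⟩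
  · intro x hx
    apply (hball x _).2.2
    rw [mem_closedBall] at hx
    rw [mem_ball]
    linarith
  · intro a x hx hax
    by_contra hcon
    have h8 : x ∈ ball z ε := by
      rw [mem_ball] at hx ⊢
      linarith
    have h9 : D.g a x ∈ ball z ε := by
      rw [mem_ball] at hax ⊢
      linarith
    exact hsub (hball x h8).1 (hball _ h9).2.1 a hcon rfl

/-- The action is uniformly continuous on compact subsets. -/
theorem exists_unif {C : Set V} (hC : IsCompact C) (hCU : C ⊆ D.U) {ε : ℝ} (hε : 0 < ε) :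
    ∃ δ : ℝ, 0 < δ ∧ ∀ x ∈ C, ∀ x' ∈ D.U, dist x x' < δ → ∀ a, dist (D.g a x) (D.g a x') < ε := by
  have h1 : ∃ δ : ℝ, 0 < δ ∧ ∀ x ∈ C, ∀ x' ∈ D.U, dist x x' < δ → ∀ a,
      dist (D.g a x) (D.g a x') < ε := by
    apply hC.induction_on (p := fun s => ∃ δ : ℝ, 0 < δ ∧ ∀ x ∈ s, ∀ x' ∈ D.U, dist x x' < δ →
      ∀ a, dist (D.g a x) (D.g a x') < ε)
    · exact ⟨1, one_pos, by simp⟩
    · rintro s t hst ⟨δ, hδ, h⟩
      exact ⟨δ, hδ, fun x hx => h x (hst hx)⟩
    · rintro s t ⟨δ, hδ, h⟩ ⟨δ', hδ', h'⟩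
      refine ⟨min δ δ', lt_min hδ hδ', ?_⟩
      rintro x (hx | hx) x' hx' hd
      · exact h x hx x' hx' (hd.trans_le (min_le_left _ _))
      · exact h' x hx x' hx' (hd.trans_le (min_le_right _ _))
    · intro z hz
      have hzU := hCU hz
      have h2 : ∀ᶠ x in 𝓝 z, ∀ a ∈ (univ : Set G), dist (D.g a x) (D.g a z) < ε / 2 := by
        apply isCompact_univ.eventually_forall_of_forall_eventually (x₀ := z)
          (P := fun (x : V) (a : G) => dist (D.g a x) (D.g a z) < ε / 2)
        intro a _
        have h4 := D.continuousAt_swap hzU a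
        have h5 : ContinuousAt (fun q : V × G => D.g q.2 z) (z, a) := by
          have := (D.continuous_orbit hzU).comp (continuous_snd : Continuous (Prod.snd : V × G → G))
          exact this.continuousAt
        have h6 : ContinuousAt (fun q : V × G => dist (D.g q.2 q.1) (D.g q.2 z)) (z, a) :=
          h4.dist h5
        apply h6.eventually_lt_const
        simp only [dist_self]
        exact half_pos hε
      obtain ⟨η, hη, hball⟩ := Metric.eventually_nhds_iff_ball.mp h2
      refine ⟨ball z (η / 2), mem_nhdsWithin_of_mem_nhds (ball_mem_nhds z (half_pos hη)), η / 2,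
        half_pos hη, ?_⟩
      intro x hx x' hx' hd a
      rw [mem_ball] at hx
      have h7 := hball x (by rw [mem_ball]; linarith) a (mem_univ _)
      have h8 := hball x' (by
        rw [mem_ball]
        have := dist_triangle_left x' z x
        linarith) a (mem_univ _)
      have h9 := dist_triangle_right (D.g a x) (D.g a x') (D.g a z)
      linarith
  exact h1

end top

/-! ### Averages -/

section av

variable {W : Type*} [NormedAddCommGroup W] [NormedSpace ℝ W] [FiniteDimensional ℝ W]
  [MeasurableSpace G] [BorelSpace G] (D : GM G V) (ν : Measure G)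

/-- The average of a function. -/
noncomputable def avM (φ : V → W) (v : V) : W := ∫ a, φ (D.g a⁻¹ v) ∂ν

variable {D ν}

theorem avM_inv [ν.IsMulLeftInvariant] (φ : V → W) : InvM D (avM D ν φ) := by
  intro b x hx
  unfold avM
  have h1 : ∀ a : G, φ (D.g a⁻¹ (D.g b x)) = (fun a => φ (D.g a⁻¹ x)) (b⁻¹ * a) := by
    intro a
    simp only
    rw [← D.hgmul _ _ x hx, mul_inv_rev, inv_inv]
  simp_rw [h1]
  exact integral_mul_left_eq_self (fun a => φ (D.g a⁻¹ x)) b⁻¹

theorem continuous_avM_aux {φ : V → W} (hφ : ContinuousOn φ D.U) {x : V} (hx : x ∈ D.U) :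
    Continuous (fun a : G => φ (D.g a⁻¹ x)) := by
  have h1 : Continuous (fun a : G => D.g a⁻¹ x) := (D.continuous_orbit hx).comp continuous_inv
  exact hφ.comp_continuous h1 (fun a => D.hgU _ x hx)

theorem integrable_avM [IsFiniteMeasure ν] {φ : V → W} (hφ : ContinuousOn φ D.U) {x : V}
    (hx : x ∈ D.U) : Integrable (fun a : G => φ (D.g a⁻¹ x)) ν := by
  have : ProperSpace W := FiniteDimensional.proper ℝ W
  exact (continuous_avM_aux hφ hx).integrable_of_hasCompactSupport
    (HasCompactSupport.of_compactSpace _)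

theorem avM_continuousOn [IsFiniteMeasure ν] {φ : V → W} (hφ : ContinuousOn φ D.U) :
    ContinuousOn (avM D ν φ) D.U := by
  have : ProperSpace V := FiniteDimensional.proper ℝ V
  have : ProperSpace W := FiniteDimensional.proper ℝ W
  have : LocallyCompactSpace D.U := D.hU.locallyCompactSpace
  rw [continuousOn_iff_continuous_domRestrict]
  have h1 : Continuous (Function.uncurry fun (v : D.U) (a : G) => φ (D.g a⁻¹ v)) := by
    have h2 : Continuous (fun q : D.U × G => ((q.2⁻¹, (q.1 : V)) : G × V)) := by fun_prop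
    have h3 : Continuous (fun q : D.U × G => D.g q.2⁻¹ (q.1 : V)) :=
      D.hgj.comp_continuous h2 (fun q => ⟨mem_univ _, q.1.2⟩)
    exact hφ.comp_continuous h3 (fun q => D.hgU _ _ q.1.2)
  have h4 := continuous_parametric_integral_of_continuous (μ := ν) h1 isCompact_univ
  simp only [Measure.restrict_univ] at h4
  exact h4

theorem norm_avM_sub_le [IsProbabilityMeasure ν] {φ : V → W} (hφ : ContinuousOn φ D.U) {x : V}
    (hx : x ∈ D.U) {v : W} {δ : ℝ} (h : ∀ a, ‖φ (D.g a x) - v‖ ≤ δ) :
    ‖avM D ν φ x - v‖ ≤ δ := by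
  have h1 : avM D ν φ x - v = ∫ a, (φ (D.g a⁻¹ x) - v) ∂ν := by
    rw [integral_sub (integrable_avM hφ hx) (integrable_const v)]
    simp [avM]
  rw [h1]
  have h2 := norm_integral_le_of_norm_le_const (μ := ν) (f := fun a => φ (D.g a⁻¹ x) - v) (C := δ)
    (ae_of_all _ fun a => h _)
  simpa using h2

theorem avM_add [IsFiniteMeasure ν] {φ ψ : V → W} (hφ : ContinuousOn φ D.U)
    (hψ : ContinuousOn ψ D.U) {x : V} (hx : x ∈ D.U) :
    avM D ν (fun v => φ v + ψ v) x = avM D ν φ x + avM D ν ψ x := by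
  unfold avM
  exact integral_add (integrable_avM hφ hx) (integrable_avM hψ hx)

/-- The bump at `z`. -/
noncomputable def bumpM (z : V) (ρ : ℝ) (x : V) : ℝ := max 0 (ρ - dist x z)

theorem bumpM_continuous (z : V) (ρ : ℝ) : Continuous (bumpM z ρ) := by
  unfold bumpM
  fun_prop

theorem bumpM_nonneg (z : V) (ρ : ℝ) (x : V) : 0 ≤ bumpM z ρ x := le_max_left _ _

theorem bumpM_pos {z : V} {ρ : ℝ} {x : V} : 0 < bumpM z ρ x ↔ x ∈ ball z ρ := by
  unfold bumpM
  rw [mem_ball, lt_max_iff]
  constructor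
  · rintro (h | h)
    · exact absurd h (lt_irrefl _)
    · linarith
  · intro h
    right
    linarith

theorem bumpM_lip (z : V) (ρ : ℝ) : LipschitzWith 1 (bumpM z ρ) := by
  apply LipschitzWith.of_dist_le_mul
  intro x y
  have h1 : |bumpM z ρ x - bumpM z ρ y| ≤ |(ρ - dist x z) - (ρ - dist y z)| := by
    unfold bumpM
    have := abs_max_sub_max_le_abs (ρ - dist x z) (ρ - dist y z) 0
    rwa [max_comm 0, max_comm 0]
  rw [Real.dist_eq, NNReal.coe_one, one_mul]
  refine h1.trans ?_
  have h2 : (ρ - dist x z) - (ρ - dist y z) = dist y z - dist x z := by ring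
  rw [h2, dist_comm x y]
  exact abs_dist_sub_le y x z

theorem avM_bump_pos [ν.IsOpenPosMeasure] [IsFiniteMeasure ν] {z : V} {ρ : ℝ} {x : V}
    (hx : x ∈ D.U) (h : x ∈ ball z ρ) : 0 < avM D ν (bumpM z ρ) x := by
  have h1 := continuous_avM_aux (D := D) (bumpM_continuous z ρ).continuousOn hx
  apply h1.integral_pos_of_hasCompactSupport_nonneg_nonzero (x := 1)
  · exact HasCompactSupport.of_compactSpace _
  · intro a
    exact bumpM_nonneg _ _ _
  · rw [inv_one, D.hg1 x hx]
    exact (bumpM_pos.mpr h).ne'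

theorem exists_of_avM_pos {z : V} {ρ : ℝ} {x : V} (h : avM D ν (bumpM z ρ) x ≠ 0) :
    ∃ a, D.g a x ∈ ball z ρ := by
  by_contra hcon
  push Not at hcon
  apply h
  unfold avM
  have h1 : (fun a : G => bumpM z ρ (D.g a⁻¹ x)) = fun _ => 0 := by
    funext a
    have h2 := hcon a⁻¹
    rw [← bumpM_pos] at h2
    exact le_antisymm (not_lt.mp h2) (bumpM_nonneg _ _ _)
  rw [h1]
  simp

end av

end Pool.Agent.Helper83.TF
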