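import Pool.Agent.Helper83.TF.GMul

/-!
# Actions of compact groups in a chart
-/

set_option autoImplicit false
set_option linter.unusedSectionVars false
set_option linter.unusedVariables false

open Set MeasureTheory Metric Filter Topology
open scoped NNReal ENNReal

namespace Pool.Agent.Helper83.TF

variable {n : ℕ}

/-- The retraction of the space onto a cube. -/
def clampM (c : Fin n → ℝ) (r : ℝ) (x : Fin n → ℝ) : Fin n → ℝ :=
  fun i => max (c i - r) (min (c i + r) (x i))

theorem continuous_clampM (c : Fin n → ℝ) (r : ℝ) : Continuous (clampM c r) := by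
  unfold clampM
  fun_prop

theorem clampM_mem {c : Fin n → ℝ} {r : ℝ} (hr : 0 < r) (x : Fin n → ℝ) :
    clampM c r x ∈ closedBall c r := by
  rw [mem_closedBall, dist_pi_le_iff hr.le]
  intro i
  rw [Real.dist_eq, abs_le]
  unfold clampM
  constructor
  · have := le_max_left (c i - r) (min (c i + r) (x i))
    linarith
  · have h1 : max (c i - r) (min (c i + r) (x i)) ≤ c i + r :=
      max_le (by linarith) (min_le_left _ _)
    linarith

theorem clampM_of_mem {c : Fin n → ℝ} {r : ℝ} {x : Fin n → ℝ}
    (hx : x ∈ closedBall c r) : clampM c r x = x := by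
  funext i
  have h1 : dist (x i) (c i) ≤ r := (dist_le_pi_dist x c i).trans hx
  rw [Real.dist_eq, abs_le] at h1
  unfold clampM
  rw [min_eq_right (by linarith [h1.2]), max_eq_right (by linarith [h1.1])]

variable {X : Type*} [TopologicalSpace X] {G : Type*} [Group G] [TopologicalSpace G]
  [MulAction G X] [ContinuousSMul G X]

/-- The coordinate expression of the action. -/
noncomputable def actM (e : OpenPartialHomeomorph X (Fin n → ℝ)) (a : G) (u : Fin n → ℝ) :
    Fin n → ℝ := e (a • e.symm u)

variable (G) in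
/-- The invariant open subset of a ball in the chart. -/
def invM (e : OpenPartialHomeomorph X (Fin n → ℝ)) (c : Fin n → ℝ) (σ : ℝ) : Set (Fin n → ℝ) :=
  {u | u ∈ ball c σ ∧ ∀ a : G, actM e a u ∈ ball c σ}

variable {e : OpenPartialHomeomorph X (Fin n → ℝ)} {c : Fin n → ℝ} {σ : ℝ}

theorem actM_continuousOn (hB : closedBall c σ ⊆ e.target)
    (hsrc : ∀ a : G, ∀ u ∈ closedBall c σ, a • e.symm u ∈ e.source) :
    ContinuousOn (fun q : G × (Fin n → ℝ) => actM e q.1 q.2) (univ ×ˢ closedBall c σ) := by
  have h1 : ContinuousOn (fun q : G × (Fin n → ℝ) => e.symm q.2) (univ ×ˢ closedBall c σ) :=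
    e.symm.continuousOn.comp continuousOn_snd fun q hq => hB hq.2
  have h2 : ContinuousOn (fun q : G × (Fin n → ℝ) => q.1) (univ ×ˢ closedBall c σ) :=
    continuous_fst.continuousOn
  exact e.continuousOn.comp (h2.smul h1) fun q hq => hsrc q.1 q.2 hq.2

theorem actM_mul (hsrc : ∀ a : G, ∀ u ∈ closedBall c σ, a • e.symm u ∈ e.source) (a b : G)
    {u : Fin n → ℝ} (hu : u ∈ closedBall c σ) : actM e (a * b) u = actM e a (actM e b u) := by
  unfold actM
  rw [e.left_inv (hsrc b u hu), smul_smul]

theorem actM_one (hB : closedBall c σ ⊆ e.target) {u : Fin n → ℝ} (hu : u ∈ closedBall c σ) :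
    actM e (1 : G) u = u := by
  unfold actM
  rw [one_smul, e.right_inv (hB hu)]

theorem invM_isOpen [CompactSpace G] (hB : closedBall c σ ⊆ e.target)
    (hsrc : ∀ a : G, ∀ u ∈ closedBall c σ, a • e.symm u ∈ e.source) :
    IsOpen (invM G e c σ) := by
  set S : Set (G × (Fin n → ℝ)) := (univ ×ˢ ball c σ) ∩
    (fun q : G × (Fin n → ℝ) => actM e q.1 q.2) ⁻¹' (ball c σ) with hS
  have hSo : IsOpen S := by
    apply ContinuousOn.isOpen_inter_preimage _ (isOpen_univ.prod isOpen_ball) isOpen_ball
    exact (actM_continuousOn hB hsrc).mono (prod_mono Subset.rfl ball_subset_closedBall)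
  have h1 : (invM G e c σ)ᶜ = Prod.snd '' Sᶜ := by
    ext u
    simp only [invM, mem_compl_iff, mem_image, Prod.exists, exists_eq_right]
    constructor
    · intro hu
      by_contra hcon
      push Not at hcon
      apply hu
      refine ⟨(hcon 1).1.2, fun a => (hcon a).2⟩
    · rintro ⟨a, ha⟩ hu
      exact ha ⟨⟨mem_univ _, hu.1⟩, hu.2 a⟩
  rw [← isClosed_compl_iff, h1]
  exact isClosedMap_snd_of_compactSpace _ hSo.isClosed_compl

theorem invM_act (hsrc : ∀ a : G, ∀ u ∈ closedBall c σ, a • e.symm u ∈ e.source) (a : G)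
    {u : Fin n → ℝ} (hu : u ∈ invM G e c σ) : actM e a u ∈ invM G e c σ := by
  refine ⟨hu.2 a, fun b => ?_⟩
  rw [← actM_mul hsrc b a (ball_subset_closedBall hu.1)]
  exact hu.2 _

variable (G) in
/-- The action in a chart. -/
noncomputable def chartGM [CompactSpace G] (e : OpenPartialHomeomorph X (Fin n → ℝ))
    (c : Fin n → ℝ) (σ : ℝ) (hσ : 0 < σ) (hB : closedBall c σ ⊆ e.target)
    (hsrc : ∀ a : G, ∀ u ∈ closedBall c σ, a • e.symm u ∈ e.source) : GM G (Fin n → ℝ) where
  U := invM G e c σ
  g := fun a u => actM e a (clampM c σ u)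
  hU := invM_isOpen hB hsrc
  hUb := isBounded_ball.subset (fun u hu => hu.1)
  hg := fun a => by
    have h1 : ContinuousOn (fun u => actM e a u) (closedBall c σ) := by
      have h5 : Continuous (fun x : Fin n → ℝ => ((a, x) : G × (Fin n → ℝ))) := by fun_prop
      exact (actM_continuousOn hB hsrc).comp h5.continuousOn (fun x hx => ⟨mem_univ _, hx⟩)
    exact h1.comp_continuous (continuous_clampM c σ) (fun u => clampM_mem hσ u)
  hgj := by
    apply Continuous.continuousOn
    exact (actM_continuousOn hB hsrc).comp_continuous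
      (f := fun q : G × (Fin n → ℝ) => (q.1, clampM c σ q.2))
      (continuous_fst.prodMk ((continuous_clampM c σ).comp continuous_snd))
      (fun q => ⟨mem_univ _, clampM_mem hσ _⟩)
  hgU := fun a u hu => by
    rw [clampM_of_mem (ball_subset_closedBall hu.1)]
    exact invM_act hsrc a hu
  hg1 := fun u hu => by
    rw [clampM_of_mem (ball_subset_closedBall hu.1)]
    exact actM_one hB (ball_subset_closedBall hu.1)
  hgmul := fun a b u hu => by
    rw [clampM_of_mem (ball_subset_closedBall hu.1),
      clampM_of_mem (ball_subset_closedBall (hu.2 b))]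
    exact actM_mul hsrc a b (ball_subset_closedBall hu.1)

section

variable [CompactSpace G] {hσ : 0 < σ} {hB : closedBall c σ ⊆ e.target}
  {hsrc : ∀ a : G, ∀ u ∈ closedBall c σ, a • e.symm u ∈ e.source}

theorem chartGM_g {u : Fin n → ℝ} (hu : u ∈ closedBall c σ) (a : G) :
    (chartGM G e c σ hσ hB hsrc).g a u = actM e a u := by
  change actM e a (clampM c σ u) = _
  rw [clampM_of_mem hu]

theorem chartGM_sub : (chartGM G e c σ hσ hB hsrc).U ⊆ ball c σ := fun _ hu => hu.1

/-- Small displacement makes the invariant set large. -/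
theorem chartGM_ball {δ : ℝ} (hδ : 0 ≤ δ) (h : ∀ a : G, ∀ u ∈ closedBall c σ, dist (actM e a u) u ≤ δ) :
    ball c (σ - δ) ⊆ (chartGM G e c σ hσ hB hsrc).U := by
  intro u hu
  have hu' : dist u c < σ - δ := hu
  have h1 : u ∈ ball c σ := by
    have : dist u c < σ := by linarith
    exact this
  refine ⟨h1, fun a => ?_⟩
  have h2 := h a u (ball_subset_closedBall h1)
  have h3 := dist_triangle (actM e a u) u c
  have : dist (actM e a u) c < σ := by linarith
  exact this

end

/-- Displacements are small on a neighbourhood of `1`. -/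
theorem eventually_small {H : Type*} [Group H] [TopologicalSpace H] [MulAction H X]
    [ContinuousSMul H X] (e : OpenPartialHomeomorph X (Fin n → ℝ)) {c : Fin n → ℝ} {σ : ℝ}
    (hB : closedBall c σ ⊆ e.target) {δ : ℝ} (hδ : 0 < δ) :
    ∀ᶠ h in 𝓝 (1 : H), ∀ u ∈ closedBall c σ, h • e.symm u ∈ e.source ∧ dist (actM e h u) u < δ := by
  have hc : IsCompact (closedBall c σ) := isCompact_closedBall c σ
  apply hc.eventually_forall_of_forall_eventually
  intro u hu
  have hut := hB hu
  have h1 : ContinuousAt (fun q : H × (Fin n → ℝ) => q.1 • e.symm q.2) (1, u) := by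
    have h2 : ContinuousAt (fun q : H × (Fin n → ℝ) => e.symm q.2) (1, u) :=
      (e.symm.continuousAt hut).comp (f := fun q : H × (Fin n → ℝ) => q.2) continuousAt_snd
    exact continuousAt_fst.smul h2
  have h3 : (1 : H) • e.symm u = e.symm u := one_smul _ _
  have h4 : e.symm u ∈ e.source := e.map_target hut
  have h5 : ContinuousAt (fun q : H × (Fin n → ℝ) => e (q.1 • e.symm q.2)) (1, u) := by
    apply ContinuousAt.comp (g := e) (f := fun q : H × (Fin n → ℝ) => q.1 • e.symm q.2) _ h1
    simp only
    rw [h3]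
    exact e.continuousAt h4
  have h6 : ∀ᶠ q in 𝓝 ((1 : H), u), q.1 • e.symm q.2 ∈ e.source := by
    apply h1.eventually_mem
    simp only
    rw [h3]
    exact e.open_source.mem_nhds h4
  have h7 : ∀ᶠ q in 𝓝 ((1 : H), u), dist (e (q.1 • e.symm q.2)) q.2 < δ := by
    have h8 : ContinuousAt (fun q : H × (Fin n → ℝ) => dist (e (q.1 • e.symm q.2)) q.2) (1, u) :=
      h5.dist continuousAt_snd
    apply h8.eventually_lt_const
    simp only
    rw [h3, e.right_inv hut, dist_self]
    exact hδ
  exact h6.and h7

end Pool.Agent.Helper83.TF
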