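import Pool.Agent.Helper83.TF.Lab
import Pool.Agent.Helper83.TF.Hol

/-!
# Preparations for the colours
-/

set_option autoImplicit false
set_option linter.unusedSectionVars false
set_option linter.unusedVariables false

open Set MeasureTheory Metric Filter Topology
open scoped NNReal ENNReal

namespace Pool.Agent.Helper83.TF

open Pool.Agent.HSF

section lemmas

variable {V : Type*} [NormedAddCommGroup V] [NormedSpace ℝ V] [FiniteDimensional ℝ V]

/-- A positive lower bound on a compact set. -/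
theorem exists_lower {C U : Set V} (hU : IsOpen U) (hC : IsCompact C) (hCU : C ⊆ U) {M : ℕ}
    {f : Fin M → V → ℝ} (hf : ∀ j, ContinuousOn (f j) U) (h : ∀ x ∈ C, ∃ j, 0 < f j x) :
    ∃ η : ℝ, 0 < η ∧ ∀ x ∈ C, ∃ j, η < f j x := by
  apply hC.induction_on (p := fun s => ∃ η : ℝ, 0 < η ∧ ∀ x ∈ s, ∃ j, η < f j x)
  · exact ⟨1, one_pos, by simp⟩
  · rintro s t hst ⟨δ, hδ, h⟩
    exact ⟨δ, hδ, fun x hx => h x (hst hx)⟩
  · rintro s t ⟨δ, hδ, h⟩ ⟨δ', hδ', h'⟩
    refine ⟨min δ δ', lt_min hδ hδ', ?_⟩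
    rintro x (hx | hx)
    · obtain ⟨j, hj⟩ := h x hx
      exact ⟨j, (min_le_left _ _).trans_lt hj⟩
    · obtain ⟨j, hj⟩ := h' x hx
      exact ⟨j, (min_le_right _ _).trans_lt hj⟩
  · intro z hz
    obtain ⟨j, hj⟩ := h z hz
    have h1 := (hf j).continuousAt (hU.mem_nhds (hCU hz))
    have h2 : ∀ᶠ x in 𝓝 z, f j z / 2 < f j x := h1.eventually_const_lt (by linarith)
    exact ⟨_, mem_nhdsWithin_of_mem_nhds h2, f j z / 2, half_pos hj, fun x hx => ⟨j, hx⟩⟩

/-- Generic levels are thin. -/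
theorem exists_thin (B : Set V) (f : V → ℝ) {η : ℝ} (hη : 0 < η) :
    ∃ t, 0 < t ∧ t < η ∧ interior {x | x ∈ B ∧ f x = t} = ∅ := by
  have : ProperSpace V := FiniteDimensional.proper ℝ V
  by_contra hcon
  push Not at hcon
  have h1 : (Ioo 0 η).PairwiseDisjoint (fun t : ℝ => {x | x ∈ B ∧ f x = t}) := by
    intro t _ t' _ hne
    rw [Function.onFun, Set.disjoint_left]
    rintro x ⟨-, hx⟩ ⟨-, hx'⟩
    exact hne (hx.symm.trans hx')
  have h2 := h1.countable_of_nonempty_interior (fun t ht =>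
    hcon t ht.1 ht.2)
  have h3 : (volume : Measure ℝ) (Ioo 0 η) = 0 := h2.measure_zero _
  rw [Real.volume_Ioo, ENNReal.ofReal_eq_zero] at h3
  linarith

variable {G : Type*} [Group G] [TopologicalSpace G] [IsTopologicalGroup G] [CompactSpace G]
  [MeasurableSpace V] [BorelSpace V]

theorem MvM.iUnion {D : GM G V} {y : V} {M : ℕ} {Z : Fin M → Set V}
    (hZ : ∀ j, IsCompact (Z j)) (hZU : ∀ j, Z j ⊆ D.U) (h : ∀ j, MvM D y (Z j)) :
    MvM D y (⋃ j, Z j) := by
  classical
  have h1 : ∀ s : Finset (Fin M), MvM D y (⋃ j ∈ s, Z j) := by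
    intro s
    induction s using Finset.induction_on with
    | empty =>
      simp only [Finset.notMem_empty, iUnion_of_empty, iUnion_empty]
      exact MvM.empty D y
    | insert a s ha ih =>
      rw [Finset.set_biUnion_insert]
      exact MvM.union (hZ a) (hZU a) (h a) ih
  have h2 := h1 Finset.univ
  simpa using h2

/-- The perturbation for functions that are continuous on `U` only. -/
theorem MvM.apply {D : GM G V} {y : V} {Z : Set V} (h : MvM D y Z) (hZ : IsCompact Z)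
    (hZU : Z ⊆ D.U) {n : ℕ} (e : V ≃L[ℝ] (Fin n → ℝ)) {F : V → V} (hF : ContinuousOn F D.U)
    {ε : ℝ} (hε : 0 < ε) :
    ∃ ψ : V → V, Continuous ψ ∧ InvM D ψ ∧ (∀ x, ‖ψ x‖ ≤ ε) ∧ ∀ x ∈ Z, F x + ψ x ≠ y := by
  have h1 : ContinuousOn (fun x => e (F x)) Z := e.continuous.comp_continuousOn (hF.mono hZU)
  obtain ⟨g, hg⟩ := ContinuousMap.exists_restrict_eq hZ.isClosed
    ⟨fun x : Z => e (F x), continuousOn_iff_continuous_domRestrict.mp h1⟩
  have h2 : ∀ x ∈ Z, e.symm (g x) = F x := by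
    intro x hx
    have h3 : g x = e (F x) := congrArg (fun f => f ⟨x, hx⟩) hg
    rw [h3, e.symm_apply_apply]
  obtain ⟨ψ, h4, h5, h6, h7⟩ := h (fun x => e.symm (g x))
    (e.symm.continuous.comp g.continuous).continuousOn ε hε
  refine ⟨ψ, h4, h5, h6, fun x hx => ?_⟩
  have h8 := h7 x hx
  simp only [h2 x hx] at h8
  exact h8

end lemmas

/-- The averages of Lipschitz maps with values in a space of dimension `n + m` have null images. -/
def NullAvg {n : ℕ} {G : Type*} [Group G] [TopologicalSpace G] [MeasurableSpace G]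
    (D : GM G (Fin n → ℝ)) (ν : Measure G) (m : ℕ) : Prop :=
  ∀ φ : (Fin n → ℝ) → (Fin n → ℝ) × (Fin m → ℝ), (∃ K, LipschitzOnWith K φ D.U) →
    (Measure.addHaar : Measure ((Fin n → ℝ) × (Fin m → ℝ))) (avM D ν φ '' D.U) = 0

end Pool.Agent.Helper83.TF
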