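import Pool.Agent.Helper83.TF.ColA

/-!
# Margins and distances
-/

set_option autoImplicit false
set_option linter.unusedSectionVars false
set_option linter.unusedVariables false

open Set MeasureTheory Metric Filter Topology
open scoped NNReal ENNReal

namespace Pool.Agent.Helper83.TF

open Pool.Agent.HSF Pool.Agent.Helper3.HS

variable {n : ℕ} {G : Type*} [Group G] [TopologicalSpace G] [IsTopologicalGroup G] [CompactSpace G]
  {p : ℕ} [Fact p.Prime] {k : Type*} [Field k] [Algebra (ZMod p) k] {r Dd : ℕ}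

/-- The preimages of balls under a map close to the identity are compact. -/
theorem compact_pre {U : Set (Fin n → ℝ)} {F : (Fin n → ℝ) → (Fin n → ℝ)}
    (hF : ContinuousOn F U) {η : ℝ} (hd : ∀ x ∈ U, dist (F x) x ≤ η) {y₀ y : Fin n → ℝ} {R δ : ℝ}
    (hR : closedBall y₀ R ⊆ U) (h : dist y y₀ + δ + η ≤ R) :
    IsCompact {x | x ∈ U ∧ dist (F x) y ≤ δ} := by
  have h1 : {x | x ∈ U ∧ dist (F x) y ≤ δ} = closedBall y₀ R ∩ F ⁻¹' closedBall y δ := by
    ext x
    constructor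
    · rintro ⟨hx, hd'⟩
      refine ⟨?_, hd'⟩
      rw [mem_closedBall]
      have h2 := dist_triangle_left x y₀ (F x)
      have h3 := dist_triangle (F x) y y₀
      have h4 := hd x hx
      linarith
    · rintro ⟨hx, hd'⟩
      exact ⟨hR hx, hd'⟩
  rw [h1]
  exact (isCompact_closedBall y₀ R).of_isClosed_subset
    ((hF.mono hR).preimage_isClosed_of_isClosed isClosed_closedBall isClosed_closedBall)
    inter_subset_left

/-- The margins. -/
theorem exists_margin {U C : Set (Fin n → ℝ)} (hU : IsOpen U) (hC : IsCompact C) (hCU : C ⊆ U)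
    {κ : Type*} {M : ℕ} {f : Fin M → (Fin n → ℝ) → ℝ} (hf : ∀ j, ContinuousOn (f j) U)
    {g : (Fin n → ℝ) → ℝ} (hg : ContinuousOn g U) (t : Fin M → κ → ℝ)
    (h : ∀ x ∈ C, 0 < g x ∨ ∃ c, ∀ j, f j x ≠ t j c) :
    ∃ lam : ℝ, 0 < lam ∧ ∀ x ∈ C, lam < g x ∨ ∃ c, ∀ j, lam ≤ |f j x - t j c| := by
  classical
  apply hC.induction_on (p := fun s => ∃ lam : ℝ, 0 < lam ∧ ∀ x ∈ s, lam < g x ∨
    ∃ c, ∀ j, lam ≤ |f j x - t j c|)
  · exact ⟨1, one_pos, by simp⟩
  · rintro s t hst ⟨δ, hδ, h⟩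
    exact ⟨δ, hδ, fun x hx => h x (hst hx)⟩
  · rintro s t ⟨δ, hδ, h⟩ ⟨δ', hδ', h'⟩
    refine ⟨min δ δ', lt_min hδ hδ', ?_⟩
    rintro x (hx | hx)
    · rcases h x hx with h | ⟨c, h⟩
      · exact Or.inl ((min_le_left _ _).trans_lt h)
      · exact Or.inr ⟨c, fun j => (min_le_left _ _).trans (h j)⟩
    · rcases h' x hx with h | ⟨c, h⟩
      · exact Or.inl ((min_le_right _ _).trans_lt h)
      · exact Or.inr ⟨c, fun j => (min_le_right _ _).trans (h j)⟩
  · intro z hz
    have hzU := hU.mem_nhds (hCU hz)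
    rcases h z hz with h1 | ⟨c, h1⟩
    · have h2 : ∀ᶠ x in 𝓝 z, g z / 2 < g x :=
        (hg.continuousAt hzU).eventually_const_lt (by linarith)
      exact ⟨_, mem_nhdsWithin_of_mem_nhds h2, g z / 2, half_pos h1, fun x hx => Or.inl hx⟩
    · have h2 : ∀ j, ∃ lam : ℝ, 0 < lam ∧ ∀ᶠ x in 𝓝 z, lam ≤ |f j x - t j c| := by
        intro j
        have h3 : 0 < |f j z - t j c| := abs_pos.mpr (sub_ne_zero.mpr (h1 j))
        refine ⟨|f j z - t j c| / 2, half_pos h3, ?_⟩
        have h4 : ContinuousAt (fun x => |f j x - t j c|) z :=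
          (((hf j).continuousAt hzU).sub continuousAt_const).abs
        exact (h4.eventually_const_lt (half_lt_self h3)).mono fun x hx => hx.le
      choose lam hlam h3 using h2
      have h4 : ∃ l : ℝ, 0 < l ∧ ∀ j, l ≤ lam j := by
        rcases isEmpty_or_nonempty (Fin M) with hM | hM
        · exact ⟨1, one_pos, fun j => (hM.false j).elim⟩
        · refine ⟨Finset.univ.inf' Finset.univ_nonempty lam, ?_, fun j =>
            Finset.inf'_le _ (Finset.mem_univ j)⟩
          rw [Finset.lt_inf'_iff]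
          exact fun j _ => hlam j
      obtain ⟨l, hl, hlj⟩ := h4
      have h5 : ∀ᶠ x in 𝓝 z, ∀ j, lam j ≤ |f j x - t j c| := eventually_all.mpr h3
      exact ⟨_, mem_nhdsWithin_of_mem_nhds h5, l, hl, fun x hx =>
        Or.inr ⟨c, fun j => (hlj j).trans (hx j)⟩⟩

/-- Disjoint compact sets are at a positive distance. -/
theorem exists_dist_pos {A B : Set (Fin n → ℝ)} (hA : IsCompact A) (hB : IsCompact B)
    (h : Disjoint A B) : ∃ δ : ℝ, 0 < δ ∧ ∀ x ∈ A, ∀ x' ∈ B, δ ≤ dist x x' := by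
  obtain ⟨δ, hδ, hd⟩ := exists_pos_forall_lt_edist hA hB.isClosed h
  refine ⟨δ, hδ, fun x hx x' hx' => ?_⟩
  have h1 := hd x hx x' hx'
  rw [edist_nndist] at h1
  have h2 : δ < nndist x x' := by exact_mod_cast h1
  exact h2.le

end Pool.Agent.Helper83.TF
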