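import Mathlib

/-!
# Polynomial functions on commutative monoids, in characteristic `p`
-/

set_option autoImplicit false
set_option linter.unusedSectionVars false
set_option linter.unusedVariables false

open Finset

namespace Pool.Agent.Helper83.TF

variable {k : Type*} [CommRing k] {N N' : Type*} [AddCommMonoid N] [AddCommMonoid N']

/-- The function `f` has degree less than `n`: all its `n`-fold differences are zero. -/
def Dg : ℕ → (N → k) → Prop
  | 0, f => ∀ x, f x = 0
  | n + 1, f => ∀ u, Dg n fun x => f (x + u) - f x

theorem Dg.congr {n : ℕ} {f g : N → k} (h : Dg n f) (hfg : ∀ x, f x = g x) : Dg n g := by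
  have : f = g := funext hfg
  rwa [← this]

theorem Dg.zero (n : ℕ) : Dg n (fun _ : N => (0 : k)) := by
  induction n with
  | zero => exact fun _ => rfl
  | succ n ih =>
    intro u
    exact ih.congr fun x => by simp

theorem Dg.add {n : ℕ} {f g : N → k} (hf : Dg n f) (hg : Dg n g) :
    Dg n (fun x => f x + g x) := by
  induction n generalizing f g with
  | zero =>
    intro x
    simp only
    rw [hf x, hg x, add_zero]
  | succ n ih =>
    intro u
    exact (ih (hf u) (hg u)).congr fun x => by ring

theorem Dg.const_mul {n : ℕ} {f : N → k} (hf : Dg n f) (c : k) : Dg n (fun x => c * f x) := by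
  induction n generalizing f with
  | zero =>
    intro x
    simp only
    rw [hf x, mul_zero]
  | succ n ih =>
    intro u
    exact (ih (hf u)).congr fun x => by ring

theorem Dg.neg {n : ℕ} {f : N → k} (hf : Dg n f) : Dg n (fun x => -f x) :=
  (hf.const_mul (-1)).congr fun x => by ring

theorem Dg.sub {n : ℕ} {f g : N → k} (hf : Dg n f) (hg : Dg n g) :
    Dg n (fun x => f x - g x) :=
  (hf.add hg.neg).congr fun x => by ring

theorem Dg.sum {n : ℕ} {α : Type*} (s : Finset α) {f : α → N → k} (hf : ∀ a ∈ s, Dg n (f a)) :
    Dg n (fun x => ∑ a ∈ s, f a x) := by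
  classical
  induction s using Finset.induction_on with
  | empty => simpa using Dg.zero n
  | insert a s ha ih =>
    have h1 := (hf a (mem_insert_self a s)).add (ih fun b hb => hf b (mem_insert_of_mem hb))
    exact h1.congr fun x => by rw [sum_insert ha]

theorem Dg.comp {n : ℕ} {f : N → k} (hf : Dg n f) (φ ψ : N' → N)
    (hφ : ∀ x u, φ (x + u) = φ x + ψ u) : Dg n (fun x => f (φ x)) := by
  induction n generalizing f with
  | zero => exact fun x => hf _
  | succ n ih =>
    intro u
    exact (ih (hf (ψ u))).congr fun x => by simp only [hφ]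

theorem Dg.shift {n : ℕ} {f : N → k} (hf : Dg n f) (u : N) : Dg n (fun x => f (x + u)) :=
  hf.comp (fun x => x + u) (fun x => x) fun x v => by abel

theorem Dg.succ {n : ℕ} {f : N → k} (hf : Dg n f) : Dg (n + 1) f := by
  intro u
  exact (hf.shift u).sub hf

theorem Dg.mono {n m : ℕ} {f : N → k} (hf : Dg n f) (h : n ≤ m) : Dg m f := by
  induction h with
  | refl => exact hf
  | step _ ih => exact ih.succ

theorem Dg.diff {n : ℕ} {f : N → k} (hf : Dg (n + 1) f) (u : N) :
    Dg n (fun x => f (x + u) - f x) := hf u

theorem Dg.const (c : k) : Dg 1 (fun _ : N => c) := by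
  intro u x
  simp

theorem Dg.const_of_one {f : N → k} (hf : Dg 1 f) (x : N) : f x = f 0 := by
  have := hf x 0
  simp only [zero_add] at this
  exact sub_eq_zero.1 this

/-- The product. -/
theorem Dg.mul_aux (n : ℕ) : ∀ (a b : ℕ) (f g : N → k), a + b = n → Dg (a + 1) f →
    Dg (b + 1) g → Dg (n + 1) (fun x => f x * g x) := by
  induction n with
  | zero =>
    intro a b f g hab hf hg u
    obtain ⟨rfl, rfl⟩ : a = 0 ∧ b = 0 := by omega
    intro x
    have h1 := hf u x
    have h2 := hg u x
    simp only at h1 h2 ⊢
    rw [sub_eq_zero.1 h1, sub_eq_zero.1 h2, sub_self]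
  | succ n ih =>
    intro a b f g hab hf hg u
    have h1 : Dg (n + 1) (fun x => (f (x + u) - f x) * g (x + u)) := by
      rcases a with _ | a
      · exact (Dg.zero (N := N) (k := k) (n + 1)).congr fun x => by
          have := hf u x
          simp only at this
          rw [this, zero_mul]
      · exact ih a b _ _ (by omega) (hf u) (hg.shift u)
    have h2 : Dg (n + 1) (fun x => f x * (g (x + u) - g x)) := by
      rcases b with _ | b
      · exact (Dg.zero (N := N) (k := k) (n + 1)).congr fun x => by
          have := hg u x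
          simp only at this
          rw [this, mul_zero]
      · exact ih a b _ _ (by omega) hf (hg u)
    exact (h1.add h2).congr fun x => by ring

theorem Dg.mul {a b c : ℕ} {f g : N → k} (hf : Dg a f) (hg : Dg b g) (h : a + b ≤ c + 1) :
    Dg c (fun x => f x * g x) := by
  rcases a with _ | a
  · exact (Dg.zero (N := N) (k := k) c).congr fun x => by rw [hf x, zero_mul]
  rcases b with _ | b
  · exact (Dg.zero (N := N) (k := k) c).congr fun x => by rw [hg x, mul_zero]
  exact (Dg.mul_aux (a + b) a b f g rfl hf hg).mono (by omega)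

/-- The sum over the values below the last coordinate. -/
theorem Dg.antidiff {n : ℕ} {h : N × ℕ → k} (hh : Dg n h) :
    Dg (n + 1) (fun q : N × ℕ => ∑ s ∈ range q.2, h (q.1, s)) := by
  induction n generalizing h with
  | zero =>
    intro u x
    simp only
    rw [sum_eq_zero fun s _ => hh _, sum_eq_zero fun s _ => hh _, sub_zero]
  | succ n ih =>
    rintro ⟨u, c⟩
    have h1 : Dg (n + 1) (fun q : N × ℕ => ∑ s ∈ range q.2,
        (h ((q.1, s) + (u, 0)) - h (q.1, s))) := ih (hh (u, 0))
    have h2 : Dg (n + 1) (fun q : N × ℕ => ∑ s ∈ range c, h (q.1 + u, q.2 + s)) := by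
      apply Dg.sum
      intro s _
      exact (hh.shift (u, s)).congr fun q => rfl
    refine (h1.add h2).congr ?_
    rintro ⟨z, t⟩
    simp only [Prod.mk_add_mk, add_zero]
    rw [sum_sub_distrib, sum_range_add (fun s => h (z + u, s)) t c]
    ring

/-! ### Binomial coefficients -/

theorem Dg.choose (j : ℕ) : Dg (j + 1) (fun n : ℕ => ((n.choose j : ℕ) : k)) := by
  induction j using Nat.strong_induction_on with
  | _ j ih =>
    intro u
    have h1 : Dg j (fun n : ℕ => ∑ q ∈ (antidiagonal j).erase (j, 0),
        (((u.choose q.2 : ℕ) : k) * ((n.choose q.1 : ℕ) : k))) := by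
      apply Dg.sum
      intro q hq
      apply Dg.const_mul
      rw [mem_erase, HasAntidiagonal.mem_antidiagonal] at hq
      have h2 : q.1 < j := by
        rcases Nat.lt_or_ge q.1 j with h | h
        · exact h
        · exfalso
          apply hq.1
          apply Prod.ext
          · simp only
            omega
          · simp only
            omega
      exact (ih q.1 h2).mono (by omega)
    refine h1.congr fun n => ?_
    have h3 := Nat.add_choose_eq n u j
    have h4 : ((n + u).choose j : k) = ∑ q ∈ antidiagonal j,
        (((u.choose q.2 : ℕ) : k) * ((n.choose q.1 : ℕ) : k)) := by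
      rw [h3]
      push_cast
      apply sum_congr rfl
      intro q _
      ring
    have h5 : (j, 0) ∈ antidiagonal j := by simp
    simp only
    rw [h4, ← add_sum_erase _ _ h5]
    simp

/-- The binomial coefficients of `φ` have degree at most `d j`. -/
def BD (k : Type*) [CommRing k] (d : ℕ) (φ : N → ℕ) : Prop :=
  ∀ j : ℕ, Dg (d * j + 1) (fun x => (((φ x).choose j : ℕ) : k))

theorem BD.congr {d : ℕ} {φ ψ : N → ℕ} (h : BD k d φ) (hφ : ∀ x, φ x = ψ x) : BD k d ψ := by
  have : φ = ψ := funext hφ
  rwa [← this]

theorem BD.add {d : ℕ} {φ ψ : N → ℕ} (hφ : BD k d φ) (hψ : BD k d ψ) :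
    BD k d (fun x => φ x + ψ x) := by
  intro j
  have h1 : Dg (d * j + 1) (fun x => ∑ q ∈ antidiagonal j,
      ((((φ x).choose q.1 : ℕ) : k) * (((ψ x).choose q.2 : ℕ) : k))) := by
    apply Dg.sum
    intro q hq
    rw [HasAntidiagonal.mem_antidiagonal] at hq
    apply (hφ q.1).mul (hψ q.2)
    have : d * j = d * q.1 + d * q.2 := by rw [← hq, mul_add]
    omega
  refine h1.congr fun x => ?_
  rw [Nat.add_choose_eq]
  push_cast
  rfl

theorem BD.mono {d e : ℕ} {φ : N → ℕ} (hφ : BD k d φ) (h : d ≤ e) : BD k e φ := by
  intro j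
  apply (hφ j).mono
  have : d * j ≤ e * j := Nat.mul_le_mul_right _ h
  omega

theorem BD.const (c : ℕ) : BD k 0 (fun _ : N => c) := by
  intro j
  exact (Dg.const _).mono (by omega)

theorem BD.hom {φ : N → ℕ} (hφ : ∀ x u, φ (x + u) = φ x + φ u) : BD k 1 φ := by
  intro j
  rw [one_mul]
  exact (Dg.choose j).comp φ φ hφ

theorem BD.sum {d : ℕ} {α : Type*} (s : Finset α) {φ : α → N → ℕ}
    (hφ : ∀ a ∈ s, BD k d (φ a)) : BD k d (fun x => ∑ a ∈ s, φ a x) := by
  classical
  induction s using Finset.induction_on with
  | empty => exact ((BD.const (N := N) (k := k) 0).mono (Nat.zero_le d)).congr fun x => by simp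
  | insert a s ha ih =>
    have h1 := (hφ a (mem_insert_self a s)).add (ih fun b hb => hφ b (mem_insert_of_mem hb))
    exact h1.congr fun x => by rw [sum_insert ha]

/-- Products of two additive functions. -/
theorem BD.mul {u v : N → ℕ} (hu : ∀ x y, u (x + y) = u x + u y)
    (hv : ∀ x y, v (x + y) = v x + v y) : BD k 2 (fun x => u x * v x) := by
  intro j
  induction j using Nat.strong_induction_on with
  | _ j ih =>
    intro h
    have hψ : BD k 1 (fun x => (v h * u x + u h * v x) + u h * v h) := by
      apply BD.add
      · apply BD.hom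
        intro x y
        rw [hu, hv]
        ring
      · exact (BD.const _).mono (by omega)
    have h1 : Dg (2 * j) (fun x => ∑ q ∈ (antidiagonal j).erase (j, 0),
        ((((u x * v x).choose q.1 : ℕ) : k) *
          ((((v h * u x + u h * v x) + u h * v h).choose q.2 : ℕ) : k))) := by
      apply Dg.sum
      intro q hq
      rw [mem_erase, HasAntidiagonal.mem_antidiagonal] at hq
      have h2 : q.1 < j := by
        rcases Nat.lt_or_ge q.1 j with h | h
        · exact h
        · exfalso
          apply hq.1
          apply Prod.ext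
          · simp only
            omega
          · simp only
            omega
      exact (ih q.1 h2).mul (hψ q.2) (by omega)
    refine h1.congr fun x => ?_
    have h3 : u (x + h) * v (x + h) = u x * v x + ((v h * u x + u h * v x) + u h * v h) := by
      rw [hu, hv]
      ring
    have h4 : (((u (x + h) * v (x + h)).choose j : ℕ) : k) = ∑ q ∈ antidiagonal j,
        ((((u x * v x).choose q.1 : ℕ) : k) *
          ((((v h * u x + u h * v x) + u h * v h).choose q.2 : ℕ) : k)) := by
      rw [h3, Nat.add_choose_eq]
      push_cast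
      rfl
    have h5 : (j, 0) ∈ antidiagonal j := by simp
    simp only
    rw [h4, ← add_sum_erase _ _ h5]
    simp

/-! ### Characteristic `p` -/

/-- Iterated differences. -/
theorem Dg.iter {n : ℕ} {f : N → k} (hf : Dg n f) (e : N) (i : ℕ) :
    Dg (n - i) ((fwdDiff e)^[i] f) := by
  induction i generalizing n f with
  | zero => exact hf
  | succ i ih =>
    rw [Function.iterate_succ_apply]
    rcases n with _ | n
    · have h1 : fwdDiff e f = fun _ => 0 := by
        funext x
        unfold fwdDiff
        rw [hf _, hf _, sub_zero]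
      rw [h1]
      have h2 := ih (Dg.zero (N := N) (k := k) 0)
      exact h2.mono (by omega)
    · have h2 := ih (hf e)
      have h3 : n + 1 - (i + 1) = n - i := by omega
      rw [h3]
      exact h2

theorem fwdDiff_char {p : ℕ} [hp : Fact p.Prime] [CharP k p] (f : N → k) (e : N) :
    fwdDiff (p • e) f = (fwdDiff e)^[p] f := by
  funext x
  obtain ⟨q, hq⟩ : ∃ q, p = q + 1 := ⟨p - 1, by have := hp.out.pos; omega⟩
  have h1 : f (x + p • e) = ∑ i ∈ range (p + 1), p.choose i • (fwdDiff e)^[i] f x :=
    shift_eq_sum_fwdDiff_iter e f p x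
  have h2 : ∑ i ∈ range q, p.choose (i + 1) • (fwdDiff e)^[i + 1] f x = 0 := by
    apply sum_eq_zero
    intro i hi
    rw [mem_range] at hi
    have h3 : p ∣ p.choose (i + 1) := hp.out.dvd_choose_self (by omega) (by omega)
    obtain ⟨c, hc⟩ := h3
    rw [hc, nsmul_eq_mul, Nat.cast_mul, CharP.cast_eq_zero, zero_mul, zero_mul]
  have h3 : ∑ i ∈ range (p + 1), p.choose i • (fwdDiff e)^[i] f x =
      f x + (fwdDiff e)^[p] f x := by
    rw [sum_range_succ, Nat.choose_self, one_smul]
    congr 1
    have h4 : ∑ i ∈ range (q + 1), p.choose i • (fwdDiff e)^[i] f x = f x := by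
      rw [sum_range_succ', h2, Nat.choose_zero_right, one_smul, zero_add]
      rfl
    rwa [← hq] at h4
  change f (x + p • e) - f x = _
  rw [h1, h3]
  ring

end Pool.Agent.Helper83.TF
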