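import Pool.Agent.Helper83.TF.Av
import Pool.Agent.HSF.Defs2
import Pool.Agent.HSF.G

/-!
# Labels
-/

set_option autoImplicit false
set_option linter.unusedSectionVars false
set_option linter.unusedVariables false

open Set MeasureTheory Metric Filter Topology
open scoped NNReal ENNReal

namespace Pool.Agent.Helper83.TF

open Pool.Agent.HSF

variable {G : Type*} [Group G] [TopologicalSpace G] [IsTopologicalGroup G] [CompactSpace G]
  {V : Type*} [NormedAddCommGroup V] [NormedSpace ℝ V] [FiniteDimensional ℝ V]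
  {p : ℕ} [Fact p.Prime] {k : Type*} [Field k] [Algebra (ZMod p) k] {r Dd : ℕ}

/-- The pairing of a covector over `k` and a vector over `ZMod p`. -/
def pg (ξ : Fin r → k) (v : Fin r → ZMod p) : k := ∑ i, ξ i * algebraMap (ZMod p) k (v i)

theorem pg_add (ξ : Fin r → k) (v w : Fin r → ZMod p) : pg ξ (v + w) = pg ξ v + pg ξ w := by
  unfold pg
  rw [← Finset.sum_add_distrib]
  apply Finset.sum_congr rfl
  intro i _
  rw [Pi.add_apply, map_add, mul_add]

/-- Sets labelled at scale `δ`. -/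
def Labd (D : GM G V) (gd : GD G p r Dd k) (w : Fin (Dd + 1) → Fin r → k) (δ : ℝ) (S : Set V) :
    Prop :=
  ∃ (col : V → Fin (Dd + 1)) (ξ : V → Fin r → k) (ℓ : V → k),
    (∀ x ∈ S, ∀ a, col (D.g a x) = col x ∧ ξ (D.g a x) = ξ x ∧
      ℓ (D.g a x) = ℓ x + pg (ξ x) (gd.χ a)) ∧
    (∀ x ∈ S, ∑ i, ξ x i * w (col x) i = 1) ∧
    (∀ x ∈ S, ∀ x' ∈ S, dist x x' < δ → (col x = col x' → ξ x = ξ x' ∧ ℓ x = ℓ x') ∧
      (col x ≠ col x' → ∑ i, ξ x i * w (col x') i = 0))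

theorem Labd.mono {D : GM G V} {gd : GD G p r Dd k} {w : Fin (Dd + 1) → Fin r → k} {δ δ' : ℝ}
    {S S' : Set V} (h : Labd D gd w δ S) (hδ : δ' ≤ δ) (hS : S' ⊆ S) : Labd D gd w δ' S' := by
  obtain ⟨col, ξ, ℓ, h1, h2, h3⟩ := h
  exact ⟨col, ξ, ℓ, fun x hx => h1 x (hS hx), fun x hx => h2 x (hS hx),
    fun x hx x' hx' hd => h3 x (hS hx) x' (hS hx') (hd.trans_le hδ)⟩

/-- The union of two labelled sets at positive distance. -/
theorem Labd.union {D : GM G V} {gd : GD G p r Dd k} {w : Fin (Dd + 1) → Fin r → k} {δ : ℝ}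
    {S S' : Set V} (h : Labd D gd w δ S) (h' : Labd D gd w δ S') (hSU : S ⊆ D.U) (hSU' : S' ⊆ D.U)
    (hinv : ∀ a, ∀ x ∈ S, D.g a x ∈ S) (hinv' : ∀ a, ∀ x ∈ S', D.g a x ∈ S')
    (hδ : 0 < δ) (hd : ∀ x ∈ S, ∀ x' ∈ S', δ ≤ dist x x') : Labd D gd w δ (S ∪ S') := by
  classical
  obtain ⟨col, ξ, ℓ, h1, h2, h3⟩ := h
  obtain ⟨col', ξ', ℓ', h1', h2', h3'⟩ := h'
  have hdisj : ∀ x ∈ S', x ∉ S := by
    intro x hx hxS
    have := hd x hxS x hx
    rw [dist_self] at this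
    linarith
  refine ⟨fun x => if x ∈ S then col x else col' x, fun x => if x ∈ S then ξ x else ξ' x,
    fun x => if x ∈ S then ℓ x else ℓ' x, ?_, ?_, ?_⟩
  · rintro x (hx | hx) a
    · simp only [if_pos hx, if_pos (hinv a x hx)]
      exact h1 x hx a
    · simp only [if_neg (hdisj x hx), if_neg (hdisj _ (hinv' a x hx))]
      exact h1' x hx a
  · rintro x (hx | hx)
    · simp only [if_pos hx]
      exact h2 x hx
    · simp only [if_neg (hdisj x hx)]
      exact h2' x hx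
  · rintro x (hx | hx) x' (hx' | hx') hdd
    · simp only [if_pos hx, if_pos hx']
      exact h3 x hx x' hx' hdd
    · exact absurd hdd (not_lt.mpr (hd x hx x' hx'))
    · rw [dist_comm] at hdd
      exact absurd hdd (not_lt.mpr (hd x' hx' x hx))
    · simp only [if_neg (hdisj x hx), if_neg (hdisj x' hx')]
      exact h3' x hx x' hx' hdd

/-! ### Local labels -/

/-- A ball with vectors orthogonal to the returns. -/
structure LD (D : GM G V) (gd : GD G p r Dd k) (κ : Type*) where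
  z : V
  ρ : ℝ
  Ξ : κ → Fin r → k
  hρ : 0 < ρ
  hU : closedBall z (2 * ρ) ⊆ D.U
  ker : ∀ a, ∀ x ∈ ball z (2 * ρ), D.g a x ∈ ball z (2 * ρ) → ∀ c, pg (Ξ c) (gd.χ a) = 0

section ld

variable {D : GM G V} {gd : GD G p r Dd k} {κ : Type*}

theorem chi_inv (gd : GD G p r Dd k) (a : G) : gd.χ a⁻¹ = -gd.χ a := by
  have h1 := gd.χmul 1 1
  rw [one_mul] at h1
  have h2 : gd.χ 1 = 0 := by
    have := congrArg (fun v => v - gd.χ 1) h1
    simpa using this.symm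
  have h3 := gd.χmul a⁻¹ a
  rw [inv_mul_cancel, h2] at h3
  exact eq_neg_of_add_eq_zero_left h3.symm

theorem exists_LD {z : V} (hz : z ∈ D.U) (Ξ : κ → Fin r → k)
    (h : ∀ a, D.g a z = z → ∀ c, pg (Ξ c) (gd.χ a) = 0) :
    ∃ L : LD D gd κ, L.z = z ∧ L.Ξ = Ξ := by
  have hO : IsOpen {a : G | ∀ c, pg (Ξ c) (gd.χ a) = 0} := by
    rw [isOpen_iff_mem_nhds]
    intro a ha
    have h1 : Continuous (fun b : G => a⁻¹ * b) := by fun_prop
    have h2 : (fun b : G => a⁻¹ * b) ⁻¹' (gd.G₂ : Set G) ∈ 𝓝 a := by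
      apply (gd.isOpen.preimage h1).mem_nhds
      change a⁻¹ * a ∈ gd.G₂
      rw [inv_mul_cancel]
      exact gd.G₂.one_mem
    filter_upwards [h2] with b hb c
    have h3 : gd.χ b = gd.χ a := by
      have h4 := gd.χmul a (a⁻¹ * b)
      rw [mul_inv_cancel_left, gd.ker _ hb, add_zero] at h4
      exact h4
    rw [h3]
    exact ha c
  obtain ⟨ρ, hρ, hU, hst⟩ := exists_ball_stab D hz hO h
  exact ⟨⟨z, ρ, Ξ, hρ, hU, fun a x hx hax => hst a x hx hax⟩, rfl, rfl⟩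

/-- Finite covers by balls with labels. -/
theorem exists_cover {C : Set V} (hC : IsCompact C) (hCU : C ⊆ D.U) (P : (κ → Fin r → k) → Prop)
    (h : ∀ z ∈ C, ∃ Ξ : κ → Fin r → k, P Ξ ∧ ∀ a, D.g a z = z → ∀ c, pg (Ξ c) (gd.χ a) = 0) :
    ∃ (M : ℕ) (L : Fin M → LD D gd κ), (∀ j, P (L j).Ξ) ∧
      ∀ x ∈ C, ∃ j, x ∈ ball (L j).z (L j).ρ := by
  classical
  have h1 : ∀ z : C, ∃ L : LD D gd κ, L.z = z ∧ P L.Ξ := by
    intro z
    obtain ⟨Ξ, h2, h3⟩ := h z z.2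
    obtain ⟨L, h4, h5⟩ := exists_LD (hCU z.2) Ξ h3
    exact ⟨L, h4, h5 ▸ h2⟩
  choose L hLz hLP using h1
  obtain ⟨t, ht⟩ := hC.elim_nhds_subcover' (fun z hz => ball z (L ⟨z, hz⟩).ρ)
    (fun z hz => ball_mem_nhds z (L ⟨z, hz⟩).hρ)
  refine ⟨t.card, fun j => L (t.equivFin.symm j), fun j => hLP _, ?_⟩
  intro x hx
  obtain ⟨z, hz, hxz⟩ := mem_iUnion₂.mp (ht hx)
  refine ⟨t.equivFin ⟨z, hz⟩, ?_⟩
  simp only [Equiv.symm_apply_apply]
  rw [hLz]
  exact hxz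

open Classical in
/-- The label of a point. -/
noncomputable def LD.lab (L : LD D gd κ) (x : V) (c : κ) : k :=
  if h : ∃ a, D.g a x ∈ ball L.z L.ρ then -pg (L.Ξ c) (gd.χ h.choose) else 0

theorem LD.ball_sub (L : LD D gd κ) : ball L.z L.ρ ⊆ ball L.z (2 * L.ρ) :=
  ball_subset_ball (by linarith [L.hρ])

theorem LD.lab_eq (L : LD D gd κ) {x : V} (hx : x ∈ D.U) {a : G}
    (ha : D.g a x ∈ ball L.z (2 * L.ρ)) (h : ∃ a, D.g a x ∈ ball L.z L.ρ) (c : κ) :
    L.lab x c = -pg (L.Ξ c) (gd.χ a) := by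
  unfold LD.lab
  rw [dif_pos h]
  have h1 := h.choose_spec
  set b := h.choose with hb
  have h2 := L.ker (b * a⁻¹) (D.g a x) ha (by
    rw [← D.hgmul _ _ x hx, inv_mul_cancel_right]
    exact L.ball_sub h1) c
  rw [gd.χmul, pg_add] at h2
  have h3 : gd.χ b + gd.χ a⁻¹ + gd.χ a = gd.χ b := by
    rw [chi_inv]
    abel
  have h4 : pg (L.Ξ c) (gd.χ b) = pg (L.Ξ c) (gd.χ a) := by
    rw [← h3, pg_add, pg_add, h2, zero_add]
  rw [h4]

theorem LD.lab_smul (L : LD D gd κ) {x : V} (hx : x ∈ D.U) (h : ∃ a, D.g a x ∈ ball L.z L.ρ)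
    (g : G) (c : κ) : L.lab (D.g g x) c = L.lab x c + pg (L.Ξ c) (gd.χ g) := by
  obtain ⟨a, ha⟩ := h
  have h1 : D.g (a * g⁻¹) (D.g g x) = D.g a x := by
    rw [← D.hgmul _ _ x hx, inv_mul_cancel_right]
  rw [L.lab_eq hx (L.ball_sub ha) ⟨a, ha⟩ c, L.lab_eq (D.hgU g x hx) (a := a * g⁻¹)
    (by rw [h1]; exact L.ball_sub ha) ⟨a * g⁻¹, by rw [h1]; exact ha⟩ c]
  rw [gd.χmul, chi_inv]
  have h2 : gd.χ a = (gd.χ a + -gd.χ g) + gd.χ g := by abel
  have h3 : pg (L.Ξ c) (gd.χ a) = pg (L.Ξ c) (gd.χ a + -gd.χ g) + pg (L.Ξ c) (gd.χ g) := by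
    rw [← pg_add, ← h2]
  rw [h3]
  ring

theorem LD.lab_close (L : LD D gd κ) {x x' : V} (hx : x ∈ D.U) (hx' : x' ∈ D.U)
    (h : ∃ a, D.g a x ∈ ball L.z L.ρ) (h' : ∃ a, D.g a x' ∈ ball L.z L.ρ)
    (hd : ∀ a, dist (D.g a x) (D.g a x') < L.ρ) (c : κ) : L.lab x c = L.lab x' c := by
  obtain ⟨a, ha⟩ := h
  rw [L.lab_eq hx (L.ball_sub ha) ⟨a, ha⟩ c, L.lab_eq hx' (a := a) _ h' c]
  rw [mem_ball] at ha ⊢
  have := dist_triangle_left (D.g a x') L.z (D.g a x)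
  have := hd a
  linarith

end ld

/-! ### Colours -/

/-- Labels from invariant functions and thresholds. -/
theorem labd_of_levels (D : GM G V) (gd : GD G p r Dd k)
    (w : Fin (Dd + 1) → Fin r → k) {κ : Type*} [DecidableEq κ] [Nonempty κ]
    (ι : κ → Fin (Dd + 1)) (hι : Function.Injective ι) {M : ℕ} (L : Fin M → LD D gd κ)
    (hΞ : ∀ j c c', ∑ i, (L j).Ξ c i * w (ι c') i = if c = c' then 1 else 0)
    {f : Fin M → V → ℝ} (t : Fin M → κ → ℝ) {lam : ℝ} (hlam : 0 < lam) {C S : Set V}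
    (hC : IsCompact C) (hCU : C ⊆ D.U) (hSC : S ⊆ C)
    (hfc : ∀ j, ContinuousOn (f j) C) (hfi : ∀ j, ∀ x ∈ S, ∀ a, f j (D.g a x) = f j x)
    (hfe : ∀ x ∈ S, ∀ j c, t j c < f j x → ∃ a, D.g a x ∈ ball (L j).z (L j).ρ)
    (h1 : ∀ x ∈ S, ∃ c, ∀ j, lam ≤ |f j x - t j c|)
    (h2 : ∀ x ∈ S, ∀ c, ∃ j, t j c < f j x) :
    ∃ δ : ℝ, 0 < δ ∧ Labd D gd w δ S := by
  classical
  by_cases hS0 : S = ∅
  · subst hS0
    exact ⟨1, one_pos, fun _ => 0, fun _ => 0, fun _ => 0, by simp, by simp, by simp⟩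
  obtain ⟨x₁, hx₁⟩ := nonempty_iff_ne_empty.mpr hS0
  have hMne : Nonempty (Fin M) := by
    obtain ⟨j, -⟩ := h2 x₁ hx₁ (Classical.arbitrary κ)
    exact ⟨j⟩
  have hSU : S ⊆ D.U := hSC.trans hCU
  -- scales
  have huc : ∀ j, ∃ δ : ℝ, 0 < δ ∧ ∀ x ∈ C, ∀ x' ∈ C, dist x x' < δ → |f j x - f j x'| < lam := by
    intro j
    have h3 := hC.uniformContinuousOn_of_continuous (hfc j)
    rw [Metric.uniformContinuousOn_iff] at h3
    obtain ⟨δ, hδ, h4⟩ := h3 lam hlam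
    exact ⟨δ, hδ, fun x hx x' hx' hd => h4 x hx x' hx' hd⟩
  have hun : ∀ j, ∃ δ : ℝ, 0 < δ ∧ ∀ x ∈ C, ∀ x' ∈ D.U, dist x x' < δ →
      ∀ a, dist (D.g a x) (D.g a x') < (L j).ρ := fun j => exists_unif D hC hCU (L j).hρ
  choose δ₁ hδ₁ huc using huc
  choose δ₂ hδ₂ hun using hun
  have hδ : ∃ δ : ℝ, 0 < δ ∧ ∀ j, δ ≤ δ₁ j ∧ δ ≤ δ₂ j := by
    have h3 : Finset.univ.Nonempty (α := Fin M) := Finset.univ_nonempty
    refine ⟨Finset.univ.inf' h3 fun j => min (δ₁ j) (δ₂ j), ?_, ?_⟩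
    · rw [Finset.lt_inf'_iff]
      exact fun j _ => lt_min (hδ₁ j) (hδ₂ j)
    · intro j
      have h4 := Finset.inf'_le (fun j => min (δ₁ j) (δ₂ j)) (Finset.mem_univ j)
      exact ⟨h4.trans (min_le_left _ _), h4.trans (min_le_right _ _)⟩
  obtain ⟨δ, hδ0, hδj⟩ := hδ
  -- colours and indices
  set cc : V → κ := fun x => Classical.epsilon (fun c : κ => ∀ j, lam ≤ |f j x - t j c|) with hcc
  have hccs : ∀ x ∈ S, ∀ j, lam ≤ |f j x - t j (cc x)| := fun x hx => Classical.epsilon_spec (h1 x hx)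
  set jj : V → Fin M := fun x => Classical.epsilon (fun j : Fin M => j ∈ {j | t j (cc x) < f j x})
    with hjj
  have hjjs : ∀ x ∈ S, t (jj x) (cc x) < f (jj x) x := by
    intro x hx
    have h3 : ∃ j : Fin M, j ∈ {j | t j (cc x) < f j x} := h2 x hx (cc x)
    exact Classical.epsilon_spec h3
  have hex : ∀ x ∈ S, ∃ a, D.g a x ∈ ball (L (jj x)).z (L (jj x)).ρ :=
    fun x hx => hfe x hx _ _ (hjjs x hx)
  have hcci : ∀ x ∈ S, ∀ a, cc (D.g a x) = cc x := by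
    intro x hx a
    simp only [hcc, hfi _ x hx a]
  have hjji : ∀ x ∈ S, ∀ a, jj (D.g a x) = jj x := by
    intro x hx a
    have h3 := hcci x hx a
    simp only [hjj, h3, hfi _ x hx a]
  refine ⟨δ, hδ0, fun x => ι (cc x), fun x => (L (jj x)).Ξ (cc x),
    fun x => (L (jj x)).lab x (cc x), ?_, ?_, ?_⟩
  · intro x hx a
    simp only
    rw [hcci x hx a, hjji x hx a]
    exact ⟨rfl, rfl, (L (jj x)).lab_smul (hSU hx) (hex x hx) a (cc x)⟩
  · intro x hx
    simp only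
    rw [hΞ, if_pos rfl]
  · intro x hx x' hx' hd
    simp only
    constructor
    · intro heq
      have hc : cc x = cc x' := hι heq
      have hj : jj x = jj x' := by
        have h3 : {j | t j (cc x) < f j x} = {j | t j (cc x') < f j x'} := by
          ext j
          rw [mem_ofPred_eq, mem_ofPred_eq, hc]
          have h4 := hccs x hx j
          have h5 := hccs x' hx' j
          have h6 := huc j x (hSC hx) x' (hSC hx') (hd.trans_le (hδj j).1)
          rw [hc] at h4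
          rw [abs_lt] at h6
          constructor
          · intro h7
            rw [abs_of_pos (by linarith)] at h4
            linarith
          · intro h7
            rw [abs_of_pos (by linarith)] at h5
            linarith
        simp only [hjj, h3]
      rw [← hc, ← hj]
      refine ⟨rfl, ?_⟩
      apply (L (jj x)).lab_close (hSU hx) (hSU hx') (hex x hx)
      · rw [hj]
        exact hex x' hx'
      · exact hun (jj x) x (hSC hx) x' (hSU hx') (hd.trans_le (hδj _).2)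
    · intro hne
      rw [hΞ, if_neg (fun h => hne (congrArg ι h))]

/-! ### Points with small stabilisers -/

section stab

variable {D : GM G V}

/-- The stabiliser of a point of `U`. -/
def GM.stab (D : GM G V) {z : V} (hz : z ∈ D.U) : Subgroup G where
  carrier := {a | D.g a z = z}
  mul_mem' := by
    intro a b ha hb
    change D.g (a * b) z = z
    rw [D.hgmul _ _ z hz, hb, ha]
  one_mem' := D.hg1 z hz
  inv_mem' := by
    intro a ha
    change D.g a⁻¹ z = z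
    have ha' : D.g a z = z := ha
    nth_rewrite 1 [← ha']
    exact D.inv a hz

theorem GM.mem_stab {z : V} (hz : z ∈ D.U) (a : G) : a ∈ D.stab hz ↔ D.g a z = z := Iff.rfl

theorem GM.stab_closed {z : V} (hz : z ∈ D.U) : IsClosed ((D.stab hz : Subgroup G) : Set G) := by
  have h1 : ((D.stab hz : Subgroup G) : Set G) = {a | D.g a z = z} := rfl
  rw [h1]
  exact isClosed_eq (D.continuous_orbit hz) continuous_const

variable {gd : GD G p r Dd k} {α : Fin r → k}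

/-- Vectors at a point not fixed by `G₂`. -/
theorem exists_xi_good (hα : LinearIndependent (ZMod p) α) {z : V} (hz : z ∈ D.U)
    (hm : ∃ a ∈ gd.G₂, D.g a z ≠ z) : ∃ Ξ : Fin (Dd + 1) → Fin r → k,
      (∀ c c' : Fin (Dd + 1), ∑ i, Ξ c i * (α i) ^ p ^ (c' : ℕ) = if c = c' then 1 else 0) ∧
      ∀ a, D.g a z = z → ∀ c, pg (Ξ c) (gd.χ a) = 0 := by
  obtain ⟨a, ha, haz⟩ := hm
  have h1 : Module.finrank (ZMod p) (Submodule.span (ZMod p)
      (gd.χ '' ((D.stab hz : Subgroup G) : Set G))) + (Dd + 1) ≤ r := by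
    by_contra hcon
    push Not at hcon
    exact haz (gd.perf (D.stab hz) (GM.stab_closed hz) (by omega) ha)
  obtain ⟨Ξ, h2, h3⟩ := gabidulin hα _ h1
  refine ⟨Ξ, h3, fun a ha c => ?_⟩
  exact h2 c _ (Submodule.subset_span ⟨a, ha, rfl⟩)

/-- A vector at a point not fixed by `G`. -/
theorem exists_xi_zero (hα : LinearIndependent (ZMod p) α) {z : V} (hz : z ∈ D.U)
    (hm : ∃ a, D.g a z ≠ z) : ∃ Ξ : Unit → Fin r → k,
      (∀ c c' : Unit, ∑ i, Ξ c i * (α i) = if c = c' then 1 else 0) ∧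
      ∀ a, D.g a z = z → ∀ c, pg (Ξ c) (gd.χ a) = 0 := by
  obtain ⟨a, haz⟩ := hm
  have h1 : Submodule.span (ZMod p) (gd.χ '' ((D.stab hz : Subgroup G) : Set G)) ≠ ⊤ := by
    intro hcon
    have h2 := gd.frat (D.stab hz) (GM.stab_closed hz) hcon
    have h3 : a ∈ D.stab hz := by rw [h2]; trivial
    exact haz h3
  obtain ⟨ξ, h2, h3⟩ := gabidulin_zero hα _ h1
  refine ⟨fun _ => ξ, fun c c' => ?_, fun a ha c => ?_⟩
  · rw [if_pos (Subsingleton.elim _ _)]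
    exact h3
  · exact h2 _ (Submodule.subset_span ⟨a, ha, rfl⟩)

end stab

end Pool.Agent.Helper83.TF
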