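import Pool.Agent.Helper83.TF.Dg

/-!
# Perturbations of the addition that lower the degree
-/

set_option autoImplicit false
set_option linter.unusedSectionVars false
set_option linter.unusedVariables false

open Finset

namespace Pool.Agent.Helper83.TF

variable {k : Type*} [CommRing k] {N N' : Type*} [AddCommMonoid N] [AddCommMonoid N']

/-- Composition with `Φ` preserves the degree. -/
def Good (k : Type*) [CommRing k] (Φ : N' → N) : Prop :=
  ∀ (d : ℕ) (f : N → k), Dg d f → Dg d (fun x => f (Φ x))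

/-- The compositions with `Φ` and `Ψ` differ by terms of lower degree. -/
def Close (k : Type*) [CommRing k] (Φ Ψ : N' → N) : Prop :=
  ∀ (d : ℕ) (f : N → k), Dg (d + 1) f → Dg d (fun x => f (Ψ x) - f (Φ x))

theorem Good.of_add {Φ : N' → N} (h : ∀ x u, Φ (x + u) = Φ x + Φ u) : Good k Φ :=
  fun _ _ hf => hf.comp Φ Φ h

theorem Close.refl (Φ : N' → N) : Close k Φ Φ := by
  intro d f _
  exact (Dg.zero d).congr fun x => by rw [sub_self]

theorem Close.trans {Φ Ψ Χ : N' → N} (h : Close k Φ Ψ) (h' : Close k Ψ Χ) : Close k Φ Χ := by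
  intro d f hf
  exact ((h d f hf).add (h' d f hf)).congr fun x => by ring

theorem Close.good {Φ Ψ : N' → N} (h : Close k Φ Ψ) (hΦ : Good k Φ) : Good k Ψ := by
  intro d f hf
  rcases d with _ | d
  · exact fun x => hf _
  · exact ((h d f hf).succ.add (hΦ _ f hf)).congr fun x => by ring

/-- A small perturbation of a good map. -/
theorem close_of {p : ℕ} [hp : Fact p.Prime] [CharP k p] (hp3 : 3 ≤ p) {Φ : N' → N}
    (hΦ : Good k Φ) {z : N' → ℕ} (hz : BD k 2 z) (e : N) :
    Close k Φ (fun x => Φ x + z x • (p • e)) := by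
  intro d f hf
  have hT : ∀ i, (fwdDiff (p • e))^[i] f = (fwdDiff e)^[p * i] f := by
    intro i
    have h1 : (fwdDiff (p • e) : (N → k) → N → k) = (fwdDiff e)^[p] := by
      funext g
      exact fwdDiff_char g e
    rw [h1, Function.iterate_mul]
  have hTd : ∀ i, Dg (d + 1 - p * i) ((fwdDiff (p • e))^[i] f) := by
    intro i
    rw [hT]
    exact hf.iter e (p * i)
  have hT0 : ∀ i, d + 1 ≤ p * i → ∀ x, (fwdDiff (p • e))^[i] f x = 0 := by
    intro i hi x
    have h1 := hTd i
    have h2 : d + 1 - p * i = 0 := by omega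
    rw [h2] at h1
    exact h1 x
  -- the expansion
  have hexp : ∀ x, f (Φ x + z x • (p • e)) = f (Φ x) + ∑ i ∈ range (d + 1),
      (((z x).choose (i + 1) : ℕ) : k) * (fwdDiff (p • e))^[i + 1] f (Φ x) := by
    intro x
    rw [shift_eq_sum_fwdDiff_iter (p • e) f (z x) (Φ x), sum_range_succ']
    simp only [Nat.choose_zero_right, one_smul, Function.iterate_zero, id_eq, nsmul_eq_mul]
    rw [add_comm]
    congr 1
    have hpi : ∀ i, i ≤ p * i := fun i => Nat.le_mul_of_pos_left i (by omega)
    rcases le_total (z x) (d + 1) with h | h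
    · apply sum_subset (range_mono h)
      intro i _ hi
      rw [mem_range, not_lt] at hi
      rw [Nat.choose_eq_zero_of_lt (by omega), Nat.cast_zero, zero_mul]
    · symm
      apply sum_subset (range_mono h)
      intro i _ hi
      rw [mem_range, not_lt] at hi
      rw [hT0 (i + 1) (by have := hpi (i + 1); omega), mul_zero]
  have h1 : Dg d (fun x => ∑ i ∈ range (d + 1), (((z x).choose (i + 1) : ℕ) : k) *
      (fwdDiff (p • e))^[i + 1] f (Φ x)) := by
    apply Dg.sum
    intro i _
    rcases Nat.lt_or_ge (p * (i + 1)) (d + 1) with h | h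
    · apply (hz (i + 1)).mul (hΦ _ _ (hTd (i + 1)))
      have : 3 * (i + 1) ≤ p * (i + 1) := Nat.mul_le_mul_right _ hp3
      omega
    · exact (Dg.zero (N := N') (k := k) d).congr fun x => by rw [hT0 (i + 1) h, mul_zero]
  refine h1.congr fun x => ?_
  rw [hexp x]
  ring

/-- Several perturbations. -/
theorem close_sum {p : ℕ} [hp : Fact p.Prime] [CharP k p] (hp3 : 3 ≤ p) {Φ : N' → N}
    (hΦ : Good k Φ) {ι : Type*} (s : Finset ι) {z : ι → N' → ℕ} (hz : ∀ c ∈ s, BD k 2 (z c))
    (e : ι → N) : Close k Φ (fun x => Φ x + ∑ c ∈ s, z c x • (p • e c)) := by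
  classical
  induction s using Finset.induction_on with
  | empty =>
    have : (fun x => Φ x + ∑ c ∈ (∅ : Finset ι), z c x • (p • e c)) = Φ := by
      funext x
      simp
    rw [this]
    exact Close.refl Φ
  | insert a s ha ih =>
    have h1 := ih fun c hc => hz c (mem_insert_of_mem hc)
    have h2 := close_of hp3 (h1.good hΦ) (hz a (mem_insert_self a s)) (e a)
    have h3 := h1.trans h2
    have h4 : (fun x => Φ x + ∑ c ∈ s, z c x • (p • e c) + z a x • (p • e a)) =
        (fun x => Φ x + ∑ c ∈ insert a s, z c x • (p • e c)) := by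
      funext x
      rw [sum_insert ha]
      abel
    rwa [h4] at h3

/-- The group law `x + y + p z(x, y)` on `ι → ℕ`. -/
def law {ι : Type*} (p : ℕ) (z : (ι → ℕ) → (ι → ℕ) → ι → ℕ) (x y : ι → ℕ) : ι → ℕ :=
  fun c => x c + y c + p * z x y c

/-- With a parameter. -/
theorem close_law {p : ℕ} [hp : Fact p.Prime] [CharP k p] (hp3 : 3 ≤ p) {ι : Type*} [Fintype ι]
    [DecidableEq ι] {z : (ι → ℕ) → (ι → ℕ) → ι → ℕ}
    (hz : ∀ c, BD k 2 (fun q : (ι → ℕ) × (ι → ℕ) => z q.1 q.2 c)) {P : Type*}
    [AddCommMonoid P] :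
    Close k (fun q : P × ((ι → ℕ) × (ι → ℕ)) => (q.1, q.2.1 + q.2.2))
      (fun q : P × ((ι → ℕ) × (ι → ℕ)) => (q.1, law p z q.2.1 q.2.2)) := by
  have h1 := close_sum (k := k) hp3 (p := p)
    (Φ := fun q : P × ((ι → ℕ) × (ι → ℕ)) => (q.1, q.2.1 + q.2.2))
    (Good.of_add fun x u => by
      ext
      · rfl
      · simp only [Prod.snd_add, Prod.fst_add, Pi.add_apply]
        ring) univ
    (z := fun c q => z q.2.1 q.2.2 c) (fun c _ j => (hz c j).comp
      (fun q : P × ((ι → ℕ) × (ι → ℕ)) => q.2) (fun q => q.2) fun x u => rfl)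
    (fun c => ((0 : P), Pi.single c 1))
  have h2 : (fun q : P × ((ι → ℕ) × (ι → ℕ)) => (q.1, q.2.1 + q.2.2) +
      ∑ c ∈ univ, z q.2.1 q.2.2 c • (p • ((0 : P), (Pi.single c 1 : ι → ℕ)))) =
      (fun q : P × ((ι → ℕ) × (ι → ℕ)) => (q.1, law p z q.2.1 q.2.2)) := by
    funext q
    apply Prod.ext
    · simp only [Prod.fst_add, Prod.fst_sum, Prod.smul_fst, smul_zero, sum_const_zero, add_zero]
    · funext c
      simp only [Prod.snd_add, Prod.snd_sum, Prod.smul_snd, Pi.add_apply, Finset.sum_apply,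
        Pi.smul_apply, law, smul_eq_mul]
      congr 1
      rw [Finset.sum_eq_single c]
      · rw [Pi.single_eq_same]
        ring
      · intro b _ hb
        rw [Pi.single_eq_of_ne hb.symm]
        ring
      · intro h
        exact absurd (mem_univ c) h
  rwa [h2] at h1

end Pool.Agent.Helper83.TF
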