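import Pool.Agent.HS3.FinMod

/-!
# Maps that avoid a value on a set with empty interior
-/

set_option autoImplicit false
set_option linter.unusedSectionVars false
set_option linter.unusedVariables false

open Set MeasureTheory Metric Filter Topology
open scoped NNReal ENNReal

namespace Pool.Agent.Helper83.TF

open Pool.Agent.Helper3.HS

variable {V : Type*} [NormedAddCommGroup V] [NormedSpace ℝ V] [FiniteDimensional ℝ V]

/-- The fibres of a `C¹` map over almost all points are countable. -/
theorem exists_countable_fibre [MeasurableSpace V] [BorelSpace V] {T : V → V}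
    (hT : ContDiff ℝ 1 T) (y : V) {δ : ℝ} (hδ : 0 < δ) :
    ∃ y' ∈ ball y δ, (T ⁻¹' {y'}).Countable := by
  classical
  set μ : Measure V := Measure.addHaar with hμ
  set C : Set V := {x | (fderiv ℝ T x).det = 0} with hC
  have hd : Differentiable ℝ T := hT.differentiable one_ne_zero
  have hnull : μ (T '' C) = 0 :=
    addHaar_image_eq_zero_of_det_fderivWithin_eq_zero μ
      (fun x hx => (hd x).hasFDerivAt.hasFDerivWithinAt) (fun x hx => hx)
  obtain ⟨y', hy', hy'C⟩ : ∃ y' ∈ ball y δ, y' ∉ T '' C := by
    by_contra hcon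
    push Not at hcon
    have h1 : μ (ball y δ) ≤ μ (T '' C) := measure_mono hcon
    rw [hnull] at h1
    exact absurd h1 (not_le.mpr (measure_ball_pos μ y hδ))
  refine ⟨y', hy', ?_⟩
  have hiso : ∀ x ∈ T ⁻¹' {y'}, 𝓝[≠] x ⊓ 𝓟 (T ⁻¹' {y'}) = ⊥ := by
    intro x hx
    have hdet : (fderiv ℝ T x).det ≠ 0 := fun h => hy'C ⟨x, h, hx⟩
    have h1 : ∀ᶠ z in 𝓝[≠] x, T z ≠ y' := by
      set e := (fderiv ℝ T x).toContinuousLinearEquivOfDetNeZero hdet with he
      have h2 : HasFDerivAt T (fderiv ℝ T x) x := (hd x).hasFDerivAt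
      exact h2.eventually_ne (c := y') ⟨_, e.antilipschitz⟩
    rw [← disjoint_iff, Filter.disjoint_principal_right]
    filter_upwards [h1] with z hz hz'
    exact hz hz'
  have hdisc : DiscreteTopology (T ⁻¹' {y'}) := discreteTopology_subtype_iff.2 hiso
  have : Countable (T ⁻¹' {y'}) := countable_of_Lindelof_of_discrete
  exact Set.to_countable _

/-- **Avoiding a value.** A continuous map can be perturbed off a value on a closed set with empty
interior. -/
theorem exists_approx_ne {F : V → V} (hF : Continuous F) {Z : Set V} (hZ : IsClosed Z)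
    (hZ0 : interior Z = ∅) (y : V) (x₀ : V) (ρ : ℝ) {δ : ℝ} (hδ : 0 < δ) :
    ∃ T : V → V, Continuous T ∧ (∀ x ∈ closedBall x₀ ρ, ‖T x - F x‖ ≤ δ) ∧ ∀ x ∈ Z, T x ≠ y := by
  classical
  have : ProperSpace V := FiniteDimensional.proper ℝ V
  let _ : MeasurableSpace V := borel V
  have : BorelSpace V := ⟨rfl⟩
  obtain ⟨T, hT, hTF⟩ := exists_approx (V := V) isClosed_univ hF.continuousOn
    (by positivity : 0 < δ / 3)
  obtain ⟨y', hy', hc⟩ := exists_countable_fibre hT y (by positivity : 0 < δ / 3)
  -- uniform continuity near the ball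
  have huc := (isCompact_closedBall x₀ (ρ + 1)).uniformContinuousOn_of_continuous
    hF.continuousOn
  rw [Metric.uniformContinuousOn_iff] at huc
  obtain ⟨η, hη, hηF⟩ := huc (δ / 3) (by positivity)
  -- a small generic vector
  have hdense : Dense (⋂ e ∈ T ⁻¹' {y'}, {v : V | e - v ∉ Z}) := by
    apply dense_biInter_of_isOpen
    · intro e _
      have h1 : IsClosed {v : V | e - v ∈ Z} := hZ.preimage (by fun_prop)
      exact h1.isOpen_compl
    · exact hc
    · intro e _
      have h1 : interior {v : V | e - v ∈ Z} = ∅ := by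
        rw [eq_empty_iff_forall_notMem]
        intro v hv
        have h2 : e - v ∈ interior Z := by
          rw [mem_interior] at hv ⊢
          obtain ⟨t, ht, hto, hvt⟩ := hv
          refine ⟨(fun w => e - w) ⁻¹' t, ?_, hto.preimage (by fun_prop), by simpa using hvt⟩
          intro w hw
          have h3 := ht hw
          simp only [mem_ofPred_eq] at h3
          simpa using h3
        rw [hZ0] at h2
        exact h2
      have h2 : {v : V | e - v ∉ Z} = {v : V | e - v ∈ Z}ᶜ := rfl
      rw [h2]
      exact interior_eq_empty_iff_dense_compl.1 h1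
  obtain ⟨v, hv, hvd⟩ := hdense.exists_dist_lt (0 : V) (by positivity : 0 < min η 1)
  have hvn : ‖v‖ < min η 1 := by rwa [dist_zero_left] at hvd
  refine ⟨fun x => T (x + v) + (y - y'), (hT.continuous.comp (by fun_prop)).add
    continuous_const, ?_, ?_⟩
  · intro x hx
    have h1 : x + v ∈ closedBall x₀ (ρ + 1) := by
      rw [mem_closedBall] at hx ⊢
      have h2 : dist (x + v) x ≤ 1 := by
        rw [dist_self_add_left]
        exact (hvn.trans_le (min_le_right _ _)).le
      linarith [dist_triangle (x + v) x x₀]
    have h2 : x ∈ closedBall x₀ (ρ + 1) := closedBall_subset_closedBall (by linarith) hx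
    have h3 := hηF (x + v) h1 x h2 (by
      rw [dist_self_add_left]
      exact hvn.trans_le (min_le_left _ _))
    have h4 := hTF (x + v) (mem_univ _)
    have e1 : T (x + v) + (y - y') - F x =
        (T (x + v) - F (x + v)) + (F (x + v) - F x) + (y - y') := by abel
    rw [e1]
    refine (norm_add₃_le).trans ?_
    rw [dist_eq_norm] at h3 h4
    rw [mem_ball, dist_comm, dist_eq_norm] at hy'
    linarith
  · intro x hx heq
    have h1 : T (x + v) = y' := by
      have h2 : T (x + v) = y - (y - y') := eq_sub_of_add_eq heq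
      rw [h2]
      abel
    rw [mem_iInter₂] at hv
    have h3 := hv (x + v) h1
    simp only [add_sub_cancel_right, mem_ofPred_eq] at h3
    exact h3 hx

end Pool.Agent.Helper83.TF
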